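import Mathlib

/-!
AEU Part III, KL block: the Macdonald functions of imaginary order, `Kit τ x = K_{iτ}(x)`.
-/

set_option autoImplicit false

namespace Pool.Agent.H38KL

open MeasureTheory Complex Filter Topology Set

/-- the Macdonald function `K_{iτ}(x)` -/
noncomputable def Kit (τ x : ℝ) : ℝ :=
  ∫ v in Set.Ioi (0 : ℝ), Real.exp (-(x * Real.cosh v)) * Real.cos (τ * v)

lemma abs_le_cosh (v : ℝ) : |v| ≤ Real.cosh v := by
  rw [← Real.cosh_abs]
  have h1 := Real.add_one_le_exp |v|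
  have h2 := Real.add_one_le_exp (-|v|)
  have h3 : Real.sinh |v| ≤ Real.cosh |v| := by
    have := Real.sinh_lt_cosh |v|
    exact this.le
  have h4 : |v| ≤ Real.sinh |v| := Real.self_le_sinh_iff.mpr (abs_nonneg v)
  linarith

lemma intg_exp_abs {a : ℝ} (ha : 0 < a) : Integrable (fun v : ℝ => Real.exp (-(a * |v|))) := by
  have h1 : IntegrableOn (fun v : ℝ => Real.exp (-(a * |v|))) (Set.Ioi 0) := by
    have := integrableOn_exp_mul_Ioi (a := -a) (by linarith) 0
    refine this.congr_fun (fun v hv => ?_) measurableSet_Ioi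
    simp only [Set.mem_Ioi] at hv
    simp only [abs_of_pos hv]
    congr 1
    ring
  have h2 : IntegrableOn (fun v : ℝ => Real.exp (-(a * |v|))) (Set.Iic 0) := by
    have := integrableOn_exp_mul_Iic (a := a) ha 0
    refine this.congr_fun (fun v hv => ?_) measurableSet_Iic
    simp only [Set.mem_Iic] at hv
    simp only [abs_of_nonpos hv]
    congr 1
    ring
  have := h2.union h1
  rwa [Set.Iic_union_Ioi, integrableOn_univ] at this

lemma intg_exp_cosh {a : ℝ} (ha : 0 < a) :
    Integrable (fun v : ℝ => Real.exp (-(a * Real.cosh v))) := by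
  refine (intg_exp_abs ha).mono' (by fun_prop) (Eventually.of_forall fun v => ?_)
  rw [Real.norm_eq_abs, abs_of_pos (Real.exp_pos _)]
  have := abs_le_cosh v
  gcongr

/-- `cosh v ^ k` does not disturb integrability -/
lemma intg_cosh_pow_exp {a : ℝ} (ha : 0 < a) (k : ℕ) :
    Integrable (fun v : ℝ => Real.cosh v ^ k * Real.exp (-(a * Real.cosh v))) := by
  have hk : ∀ y : ℝ, 0 ≤ y → y ^ k * Real.exp (-(a * y)) ≤
      (k.factorial * (2 / a) ^ k) * Real.exp (-(a / 2 * y)) := by
    intro y hy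
    have h1 : (a / 2 * y) ^ k / k.factorial ≤ Real.exp (a / 2 * y) :=
      Real.pow_div_factorial_le_exp _ (by positivity) _
    have h2 : Real.exp (-(a * y)) = Real.exp (-(a / 2 * y)) * Real.exp (-(a / 2 * y)) := by
      rw [← Real.exp_add]; congr 1; ring
    rw [h2]
    have h3 : y ^ k * Real.exp (-(a / 2 * y)) ≤ k.factorial * (2 / a) ^ k := by
      rw [Real.exp_neg, ← div_eq_mul_inv, div_le_iff₀ (Real.exp_pos _)]
      rw [div_le_iff₀ (by positivity)] at h1
      have h4 : y ^ k = (2 / a) ^ k * (a / 2 * y) ^ k := by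
        rw [← mul_pow]; congr 1; field_simp
      rw [h4]
      calc (2 / a) ^ k * (a / 2 * y) ^ k ≤ (2 / a) ^ k * (Real.exp (a / 2 * y) * k.factorial) := by
            gcongr
        _ = _ := by ring
    calc y ^ k * (Real.exp (-(a / 2 * y)) * Real.exp (-(a / 2 * y)))
        = (y ^ k * Real.exp (-(a / 2 * y))) * Real.exp (-(a / 2 * y)) := by ring
      _ ≤ _ := by gcongr
  refine ((intg_exp_cosh (a := a / 2) (by positivity)).const_mul (k.factorial * (2 / a) ^ k)).mono'
    (by fun_prop) (Eventually.of_forall fun v => ?_)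
  have hc : 0 ≤ Real.cosh v := (Real.cosh_pos v).le
  rw [Real.norm_eq_abs, abs_of_nonneg (by positivity)]
  exact hk _ hc

/-! ### The contour shift -/

/-- the entire function whose integral over horizontal lines is considered -/
noncomputable def Gf (x τ : ℝ) (z : ℂ) : ℂ := Complex.exp (-(x * Complex.cosh z) + I * τ * z)

lemma Gf_hasDeriv (x τ : ℝ) (z : ℂ) :
    HasDerivAt (Gf x τ) ((-(x * Complex.sinh z) + I * τ) * Gf x τ z) z := by
  have h : HasDerivAt (fun z : ℂ => -(x * Complex.cosh z) + I * τ * z)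
      (-(x * Complex.sinh z) + I * τ * 1) z :=
    ((Complex.hasDerivAt_cosh z).const_mul (x : ℂ)).neg.add ((hasDerivAt_id z).const_mul _)
  exact h.cexp.congr_deriv (by unfold Gf; ring)

lemma re_cosh (v φ : ℝ) : (Complex.cosh (v + φ * I)).re = Real.cosh v * Real.cos φ := by
  rw [Complex.cosh_add, Complex.cosh_mul_I, Complex.sinh_mul_I]
  simp [Complex.add_re, Complex.mul_re, ← Complex.ofReal_cosh, ← Complex.ofReal_sinh,
    ← Complex.ofReal_cos, ← Complex.ofReal_sin]

lemma norm_Gf (x τ v φ : ℝ) :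
    ‖Gf x τ (v + φ * I)‖ = Real.exp (-(x * Real.cos φ * Real.cosh v)) * Real.exp (-(τ * φ)) := by
  unfold Gf
  rw [Complex.norm_exp, ← Real.exp_add]
  congr 1
  have h1 : (-((x : ℂ) * Complex.cosh (v + φ * I)) + I * τ * (v + φ * I)).re =
      -(x * (Complex.cosh (v + φ * I)).re) + (I * τ * (v + φ * I)).re := by
    simp
  rw [h1, re_cosh]
  have h2 : (I * (τ : ℂ) * (v + φ * I)).re = -(τ * φ) := by
    simp [Complex.mul_re, Complex.mul_im]
  rw [h2]
  ring

lemma norm_sinh_le (v φ : ℝ) : ‖Complex.sinh (v + φ * I)‖ ≤ Real.cosh v := by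
  have h : ‖Complex.sinh ((v : ℂ) + φ * I)‖ ^ 2 ≤ Real.cosh v ^ 2 := by
    rw [← Complex.normSq_eq_norm_sq, Complex.sinh_add, Complex.cosh_mul_I, Complex.sinh_mul_I]
    rw [Complex.normSq_apply]
    simp only [Complex.add_re, Complex.mul_re, Complex.add_im, Complex.mul_im,
      ← Complex.ofReal_cosh, ← Complex.ofReal_sinh, ← Complex.ofReal_cos, ← Complex.ofReal_sin,
      Complex.ofReal_re, Complex.ofReal_im, Complex.I_re, Complex.I_im]
    have h1 := Real.cosh_sq v
    have h2 := Real.sin_sq_add_cos_sq φ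
    have h3 : Real.cos φ ^ 2 ≤ 1 := Real.cos_sq_le_one φ
    have h4 : Real.sin φ ^ 2 = 1 - Real.cos φ ^ 2 := by linarith
    nlinarith [sq_nonneg (Real.sinh v), sq_nonneg (Real.cosh v), sq_nonneg (Real.cos φ)]
  exact (pow_le_pow_iff_left₀ (norm_nonneg _) (Real.cosh_pos v).le two_ne_zero).mp h

lemma Gf_meas (x τ φ : ℝ) : Continuous (fun v : ℝ => Gf x τ (v + φ * I)) := by
  unfold Gf
  fun_prop

lemma Gf_intg {x φ : ℝ} (hx : 0 < x) (τ : ℝ) (hφ : 0 < Real.cos φ) :
    Integrable (fun v : ℝ => Gf x τ (v + φ * I)) := by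
  have h := (intg_exp_cosh (a := x * Real.cos φ) (by positivity)).mul_const (Real.exp (-(τ * φ)))
  refine h.mono' (Gf_meas x τ φ).aestronglyMeasurable (Eventually.of_forall fun v => ?_)
  rw [norm_Gf]

lemma Gf_deriv_bound {x : ℝ} (hx : 0 < x) (τ v φ : ℝ) :
    ‖(-(x * Complex.sinh (v + φ * I)) + I * τ) * Gf x τ (v + φ * I)‖ ≤
      (x * Real.cosh v + |τ|) *
        (Real.exp (-(x * Real.cos φ * Real.cosh v)) * Real.exp (-(τ * φ))) := by
  rw [norm_mul, norm_Gf]
  refine mul_le_mul_of_nonneg_right ?_ (by positivity)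
  calc ‖-((x : ℂ) * Complex.sinh (v + φ * I)) + I * τ‖
      ≤ ‖-((x : ℂ) * Complex.sinh (v + φ * I))‖ + ‖I * (τ : ℂ)‖ := norm_add_le _ _
    _ ≤ x * Real.cosh v + |τ| := by
        rw [norm_neg, norm_mul, norm_mul, Complex.norm_I, one_mul, Complex.norm_real,
          Complex.norm_real, Real.norm_eq_abs, Real.norm_eq_abs, abs_of_pos hx]
        have := norm_sinh_le v φ
        gcongr

lemma cosφ_lower {φ₀ φ : ℝ} (h0 : 0 ≤ φ₀) (h1 : φ₀ < Real.pi / 2) (h : |φ| ≤ φ₀) :
    Real.cos φ₀ ≤ Real.cos φ := by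
  rw [← Real.cos_abs φ]
  exact Real.cos_le_cos_of_nonneg_of_le_pi (abs_nonneg _) (by linarith [Real.pi_pos]) h

/-- the contour shift -/
lemma shift {x φ : ℝ} (hx : 0 < x) (τ : ℝ) (hφ : |φ| < Real.pi / 2) :
    ∫ v : ℝ, Gf x τ (v + φ * I) = ∫ v : ℝ, Gf x τ v := by
  obtain ⟨φ₀, h0, h1⟩ := exists_between hφ
  have h00 : 0 ≤ φ₀ := le_trans (abs_nonneg _) h0.le
  have hc : 0 < Real.cos φ₀ := Real.cos_pos_of_mem_Ioo ⟨by linarith [Real.pi_pos], h1⟩
  set E : ℝ → ℂ := fun θ => ∫ v : ℝ, Gf x τ (v + θ * I) with hE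
  -- derivative of the integrand in θ
  have hd : ∀ v θ : ℝ, HasDerivAt (fun θ : ℝ => Gf x τ (v + θ * I))
      (((-(x * Complex.sinh (v + θ * I)) + I * τ) * Gf x τ (v + θ * I)) * I) θ := by
    intro v θ
    have h2 : HasDerivAt (fun θ : ℝ => (v : ℂ) + θ * I) (0 + 1 * I) θ :=
      (hasDerivAt_const θ (v : ℂ)).add ((Complex.ofRealCLM.hasDerivAt (x := θ)).mul_const I)
    have := (Gf_hasDeriv x τ (v + θ * I)).comp θ h2
    simpa [one_mul, zero_add, Function.comp_def] using this
  have hdv : ∀ v θ : ℝ, HasDerivAt (fun v : ℝ => Gf x τ (v + θ * I))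
      ((-(x * Complex.sinh (v + θ * I)) + I * τ) * Gf x τ (v + θ * I)) v := by
    intro v θ
    have h2 : HasDerivAt (fun v : ℝ => (v : ℂ) + θ * I) (1 + 0) v :=
      (Complex.ofRealCLM.hasDerivAt (x := v)).add (hasDerivAt_const v (θ * I))
    have := (Gf_hasDeriv x τ (v + θ * I)).comp v h2
    simpa [Function.comp_def] using this
  have hbd : ∀ θ : ℝ, |θ| ≤ φ₀ → ∀ v : ℝ,
      ‖((-(x * Complex.sinh (v + θ * I)) + I * τ) * Gf x τ (v + θ * I))‖ ≤
        (x * Real.cosh v + |τ|) * (Real.exp (-(x * Real.cos φ₀ * Real.cosh v)) *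
          Real.exp (|τ| * φ₀)) := by
    intro θ hθ v
    refine (Gf_deriv_bound hx τ v θ).trans ?_
    have h3 := cosφ_lower h00 h1 hθ
    have h4 : 0 < Real.cosh v := Real.cosh_pos v
    have h5 : -(τ * θ) ≤ |τ| * φ₀ := by
      calc -(τ * θ) ≤ |τ * θ| := neg_le_abs _
        _ = |τ| * |θ| := abs_mul _ _
        _ ≤ _ := by gcongr
    gcongr
  have hint : Integrable (fun v : ℝ =>
      (x * Real.cosh v + |τ|) * (Real.exp (-(x * Real.cos φ₀ * Real.cosh v)) *
          Real.exp (|τ| * φ₀))) := by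
    have i1 := intg_cosh_pow_exp (a := x * Real.cos φ₀) (by positivity) 1
    have i0 := intg_exp_cosh (a := x * Real.cos φ₀) (by positivity)
    have := ((i1.const_mul x).add (i0.const_mul |τ|)).mul_const (Real.exp (|τ| * φ₀))
    refine this.congr (Eventually.of_forall fun v => ?_)
    simp only [Pi.add_apply]
    ring
  have hEd : ∀ θ : ℝ, |θ| < φ₀ → HasDerivAt E 0 θ := by
    intro θ hθ
    have hball : Metric.ball θ (φ₀ - |θ|) ∈ 𝓝 θ := Metric.ball_mem_nhds _ (by linarith)
    have key := hasDerivAt_integral_of_dominated_loc_of_deriv_le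
      (F := fun (θ : ℝ) (v : ℝ) => Gf x τ (v + θ * I))
      (F' := fun (θ : ℝ) (v : ℝ) =>
        ((-(x * Complex.sinh (v + θ * I)) + I * τ) * Gf x τ (v + θ * I)) * I)
      (x₀ := θ) (μ := volume) (s := Metric.ball θ (φ₀ - |θ|))
      (bound := fun v => (x * Real.cosh v + |τ|) * (Real.exp (-(x * Real.cos φ₀ * Real.cosh v)) *
          Real.exp (|τ| * φ₀))) hball
      (Eventually.of_forall fun θ => (Gf_meas x τ θ).aestronglyMeasurable)
      (Gf_intg hx τ (lt_of_lt_of_le hc (cosφ_lower h00 h1 hθ.le)))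
      (by
        refine Continuous.aestronglyMeasurable ?_
        unfold Gf
        fun_prop)
      (Eventually.of_forall fun v t ht => by
        rw [norm_mul, Complex.norm_I, mul_one]
        refine hbd t ?_ v
        have h3 : |t - θ| < φ₀ - |θ| := by
          have := Metric.mem_ball.mp ht
          rwa [Real.dist_eq] at this
        have : |t| ≤ |t - θ| + |θ| := by
          calc |t| = |(t - θ) + θ| := by ring_nf
            _ ≤ _ := abs_add_le _ _
        linarith)
      hint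
      (Eventually.of_forall fun v t _ => hd v t)
    have hzero : ∫ v : ℝ, ((-(x * Complex.sinh (v + θ * I)) + I * τ) * Gf x τ (v + θ * I)) * I
        = 0 := by
      rw [integral_mul_const]
      have hI : Integrable (fun v : ℝ =>
          (-(x * Complex.sinh (v + θ * I)) + I * τ) * Gf x τ (v + θ * I)) := by
        refine hint.mono' ?_ (Eventually.of_forall fun v => hbd θ hθ.le v)
        refine Continuous.aestronglyMeasurable ?_
        unfold Gf
        fun_prop
      have htop : Tendsto (fun v : ℝ => Gf x τ (v + θ * I)) atTop (𝓝 0) :=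
        tendsto_zero_of_hasDerivAt_of_integrableOn_Ioi (a := 0) (fun v _ => hdv v θ)
          hI.integrableOn (Gf_intg hx τ (lt_of_lt_of_le hc (cosφ_lower h00 h1 hθ.le))).integrableOn
      have hbot : Tendsto (fun v : ℝ => Gf x τ (v + θ * I)) atBot (𝓝 0) :=
        tendsto_zero_of_hasDerivAt_of_integrableOn_Iic (a := 0) (fun v _ => hdv v θ)
          hI.integrableOn (Gf_intg hx τ (lt_of_lt_of_le hc (cosφ_lower h00 h1 hθ.le))).integrableOn
      have := integral_of_hasDerivAt_of_tendsto (fun v => hdv v θ) hI hbot htop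
      rw [this]
      simp
    have := key.2
    rwa [hzero] at this
  -- constancy
  have hconst : E φ = E 0 := by
    have hs : Convex ℝ (Set.Ioo (-φ₀) φ₀) := convex_Ioo _ _
    have hφm : φ ∈ Set.Ioo (-φ₀) φ₀ := abs_lt.mp h0
    have h0m : (0 : ℝ) ∈ Set.Ioo (-φ₀) φ₀ := by
      have : 0 < φ₀ := lt_of_le_of_lt (abs_nonneg _) h0
      exact ⟨by linarith, this⟩
    refine (convex_Ioo (-φ₀) φ₀).is_const_of_fderivWithin_eq_zero (𝕜 := ℝ) (f := E) ?_ ?_ hφm h0m
    · intro θ hθ
      exact (hEd θ (abs_lt.mpr hθ)).differentiableAt.differentiableWithinAt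
    · intro θ hθ
      have := (hEd θ (abs_lt.mpr hθ)).hasFDerivAt.hasFDerivWithinAt (s := Set.Ioo (-φ₀) φ₀)
      rw [this.fderivWithin ((isOpen_Ioo.uniqueDiffOn) θ hθ)]
      ext
      simp
  simpa [hE] using hconst

/-! ### Real form -/

lemma Kit_intg {x : ℝ} (hx : 0 < x) (τ : ℝ) :
    Integrable (fun v : ℝ => Real.exp (-(x * Real.cosh v)) * Real.cos (τ * v)) := by
  refine (intg_exp_cosh hx).mono' (by fun_prop) (Eventually.of_forall fun v => ?_)
  rw [norm_mul, Real.norm_eq_abs, Real.norm_eq_abs, abs_of_pos (Real.exp_pos _)]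
  exact mul_le_of_le_one_right (Real.exp_pos _).le (Real.abs_cos_le_one _)

lemma two_Kit (x τ : ℝ) :
    ∫ v : ℝ, Real.exp (-(x * Real.cosh v)) * Real.cos (τ * v) = 2 * Kit τ x := by
  have h := integral_comp_abs (f := fun v : ℝ => Real.exp (-(x * Real.cosh v)) * Real.cos (τ * v))
  rw [Kit, ← h]
  refine integral_congr_ae (Eventually.of_forall fun v => ?_)
  simp only [Real.cosh_abs]
  congr 1
  rcases abs_choice v with h | h <;> rw [h]
  rw [mul_neg, Real.cos_neg]

/-- Fourier transform: `∫ exp(-x cosh (v + iφ) + iτv) dv = 2 exp(φτ) K_{iτ}(x)` -/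
lemma fourier_Kit {x φ : ℝ} (hx : 0 < x) (τ : ℝ) (hφ : |φ| < Real.pi / 2) :
    ∫ v : ℝ, Complex.exp (-(x * Complex.cosh (v + φ * I))) * Complex.exp (I * τ * v) =
      ((2 * Real.exp (φ * τ) * Kit τ x : ℝ) : ℂ) := by
  have h1 := shift hx τ hφ
  have h2 : ∫ v : ℝ, Gf x τ v = ((2 * Kit τ x : ℝ) : ℂ) := by
    have hs : ∀ v : ℝ, Gf x τ v = ((Real.exp (-(x * Real.cosh v)) * Real.cos (τ * v) : ℝ) : ℂ)
        + ((Real.exp (-(x * Real.cosh v)) * Real.sin (τ * v) : ℝ) : ℂ) * I := by
      intro v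
      unfold Gf
      rw [Complex.exp_add]
      have e1 : Complex.exp (-((x : ℂ) * Complex.cosh v)) =
          ((Real.exp (-(x * Real.cosh v)) : ℝ) : ℂ) := by push_cast; rfl
      have e2 : Complex.exp (I * τ * v) = ((Real.cos (τ * v) : ℝ) : ℂ) +
          ((Real.sin (τ * v) : ℝ) : ℂ) * I := by
        push_cast
        rw [← Complex.exp_mul_I]
        congr 1
        ring
      rw [e1, e2]
      push_cast
      ring
    simp only [hs]
    have hi2 : Integrable (fun v : ℝ => Real.exp (-(x * Real.cosh v)) * Real.sin (τ * v)) := by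
      refine (intg_exp_cosh hx).mono' (by fun_prop) (Eventually.of_forall fun v => ?_)
      rw [norm_mul, Real.norm_eq_abs, Real.norm_eq_abs, abs_of_pos (Real.exp_pos _)]
      exact mul_le_of_le_one_right (Real.exp_pos _).le (Real.abs_sin_le_one _)
    have ha := integral_add (μ := volume)
      (f := fun v : ℝ => ((Real.exp (-(x * Real.cosh v)) * Real.cos (τ * v) : ℝ) : ℂ))
      (g := fun v : ℝ => ((Real.exp (-(x * Real.cosh v)) * Real.sin (τ * v) : ℝ) : ℂ) * I)
      (Kit_intg hx τ).ofReal (hi2.ofReal.mul_const I)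
    rw [ha, integral_mul_const,
      integral_complex_ofReal, integral_complex_ofReal, two_Kit]
    have hodd : ∫ v : ℝ, Real.exp (-(x * Real.cosh v)) * Real.sin (τ * v) = 0 := by
      have h3 := integral_neg_eq_self (fun v : ℝ => Real.exp (-(x * Real.cosh v)) *
        Real.sin (τ * v)) volume
      have h4 : ∀ v : ℝ, Real.exp (-(x * Real.cosh (-v))) * Real.sin (τ * (-v)) =
          -(Real.exp (-(x * Real.cosh v)) * Real.sin (τ * v)) := by
        intro v
        rw [Real.cosh_neg, mul_neg, Real.sin_neg]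
        ring
      simp only [h4] at h3
      rw [integral_neg] at h3
      linarith
    rw [hodd]
    simp
  rw [h2] at h1
  have h3 : ∀ v : ℝ, Complex.exp (-(x * Complex.cosh (v + φ * I))) * Complex.exp (I * τ * v) =
      ((Real.exp (φ * τ) : ℝ) : ℂ) * Gf x τ (v + φ * I) := by
    intro v
    unfold Gf
    push_cast
    rw [← Complex.exp_add, ← Complex.exp_add]
    congr 1
    ring_nf
    rw [Complex.I_sq]
    ring
  simp only [h3]
  rw [integral_const_mul, h1]
  push_cast
  ring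

lemma Kit_neg (τ x : ℝ) : Kit (-τ) x = Kit τ x := by
  unfold Kit
  simp [neg_mul, Real.cos_neg]

lemma Kit_abs (τ x : ℝ) : Kit |τ| x = Kit τ x := by
  rcases abs_choice τ with h | h <;> rw [h]
  exact Kit_neg τ x

lemma Kit_zero_pos {x : ℝ} (hx : 0 < x) : 0 < Kit 0 x := by
  have h := two_Kit x 0
  have h2 : 0 < ∫ v : ℝ, Real.exp (-(x * Real.cosh v)) * Real.cos (0 * v) := by
    simp only [zero_mul, Real.cos_zero, mul_one]
    exact integral_exp_pos (intg_exp_cosh hx)
  linarith

lemma abs_Kit_le_zero {x : ℝ} (hx : 0 < x) (τ : ℝ) : |Kit τ x| ≤ Kit 0 x := by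
  have h1 := two_Kit x τ
  have h2 := two_Kit x 0
  have h3 : |∫ v : ℝ, Real.exp (-(x * Real.cosh v)) * Real.cos (τ * v)| ≤
      ∫ v : ℝ, Real.exp (-(x * Real.cosh v)) * Real.cos (0 * v) := by
    refine (abs_integral_le_integral_abs).trans ?_
    refine integral_mono (Kit_intg hx τ).abs (Kit_intg hx 0) fun v => ?_
    simp only [zero_mul, Real.cos_zero, mul_one]
    rw [abs_mul, abs_of_pos (Real.exp_pos _)]
    exact mul_le_of_le_one_right (Real.exp_pos _).le (Real.abs_cos_le_one _)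
  rw [h1, h2, abs_mul, abs_of_pos (by norm_num : (0 : ℝ) < 2)] at h3
  linarith

/-- exponential decay in the order -/
lemma abs_Kit_le {x φ : ℝ} (hx : 0 < x) (τ : ℝ) (h0 : 0 ≤ φ) (h1 : φ < Real.pi / 2) :
    |Kit τ x| ≤ Real.exp (-(φ * |τ|)) * Kit 0 (x * Real.cos φ) := by
  have hc : 0 < Real.cos φ := Real.cos_pos_of_mem_Ioo ⟨by linarith [Real.pi_pos], h1⟩
  have key := fourier_Kit hx |τ| (φ := φ) (by rwa [abs_of_nonneg h0])
  have h2 : ‖∫ v : ℝ, Complex.exp (-(x * Complex.cosh (v + φ * I))) *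
      Complex.exp (I * (|τ| : ℝ) * v)‖ ≤ 2 * Kit 0 (x * Real.cos φ) := by
    refine (norm_integral_le_integral_norm _).trans ?_
    have h3 := two_Kit (x * Real.cos φ) 0
    rw [← h3]
    refine le_of_eq (integral_congr_ae (Eventually.of_forall fun v => ?_))
    simp only [zero_mul, Real.cos_zero, mul_one]
    rw [norm_mul, Complex.norm_exp, Complex.norm_exp]
    have e1 : (-((x : ℂ) * Complex.cosh (v + φ * I))).re = -(x * Real.cos φ * Real.cosh v) := by
      rw [Complex.neg_re, Complex.re_ofReal_mul, re_cosh]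
      ring
    have e2 : (I * ((|τ| : ℝ) : ℂ) * v).re = 0 := by
      simp [Complex.mul_re, Complex.mul_im]
    rw [e1, e2, Real.exp_zero, mul_one]
  rw [key, Complex.norm_real, Real.norm_eq_abs, Kit_abs, abs_mul, abs_mul,
    abs_of_pos (by norm_num : (0 : ℝ) < 2), abs_of_pos (Real.exp_pos _)] at h2
  rw [Real.exp_neg]
  have h4 : Real.exp (φ * |τ|) * |Kit τ x| ≤ Kit 0 (x * Real.cos φ) := by linarith
  rw [inv_mul_eq_div, le_div_iff₀ (Real.exp_pos _)]
  linarith

end Pool.Agent.H38KL
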