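import Pool.Agent.Helper8_Fine.Pdk

/-!
HK, part 1: Gaussian convolution for all times, half planes: the heat kernel is given by images.
-/

set_option autoImplicit false
set_option linter.unusedSimpArgs false

namespace Pool.Agent.H38KL

open MeasureTheory Complex Filter Topology Set Pool.Agent.H62T Pool.Agent.H16F
open scoped ENNReal NNReal

/-! ### Gaussian kernels -/

lemma G_pos {s : ℝ} (hs : 0 < s) (z : ℂ) : 0 < G s z := by
  unfold G
  positivity

lemma sq_id {s t : ℝ} (hs : 0 < s) (ht : 0 < t) (x y z : ℂ) :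
    ‖x - z‖ ^ 2 / (4 * s) + ‖z - y‖ ^ 2 / (4 * t) =
      (s + t) / (4 * s * t) * ‖z - ((t / (s + t) : ℝ) * x + (s / (s + t) : ℝ) * y)‖ ^ 2
        + ‖x - y‖ ^ 2 / (4 * (s + t)) := by
  have hst : s + t ≠ 0 := by positivity
  rw [← Complex.normSq_eq_norm_sq, ← Complex.normSq_eq_norm_sq, ← Complex.normSq_eq_norm_sq,
    ← Complex.normSq_eq_norm_sq, Complex.normSq_apply, Complex.normSq_apply,
    Complex.normSq_apply, Complex.normSq_apply]
  simp only [Complex.sub_re, Complex.sub_im, Complex.add_re, Complex.add_im,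
    Complex.re_ofReal_mul, Complex.im_ofReal_mul]
  field_simp
  ring

lemma G_mul_gen {s t : ℝ} (hs : 0 < s) (ht : 0 < t) (x y z : ℂ) :
    G s (x - z) * G t (z - y) = G (s + t) (x - y) * (((s + t) / (4 * Real.pi * s * t)) *
      Real.exp (-((s + t) / (4 * s * t)) *
        ‖z - ((t / (s + t) : ℝ) * x + (s / (s + t) : ℝ) * y)‖ ^ 2)) := by
  unfold G
  have h := sq_id hs ht x y z
  have h1 : Real.exp (-‖x - z‖ ^ 2 / (4 * s)) * Real.exp (-‖z - y‖ ^ 2 / (4 * t)) =
      Real.exp (-‖x - y‖ ^ 2 / (4 * (s + t))) * Real.exp (-((s + t) / (4 * s * t)) *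
        ‖z - ((t / (s + t) : ℝ) * x + (s / (s + t) : ℝ) * y)‖ ^ 2) := by
    rw [← Real.exp_add, ← Real.exp_add]
    congr 1
    have e1 : -‖x - z‖ ^ 2 / (4 * s) + -‖z - y‖ ^ 2 / (4 * t) =
      -(‖x - z‖ ^ 2 / (4 * s) + ‖z - y‖ ^ 2 / (4 * t)) := by ring
    rw [e1, h]
    ring
  rw [div_mul_div_comm, h1]
  field_simp

lemma G_conv_gen {s t : ℝ} (hs : 0 < s) (ht : 0 < t) (x y : ℂ) :
    Integrable (fun z : ℂ => G s (x - z) * G t (z - y)) ∧
      ∫ z : ℂ, G s (x - z) * G t (z - y) = G (s + t) (x - y) := by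
  have hf : (fun z : ℂ => G s (x - z) * G t (z - y)) = fun z : ℂ =>
      G (s + t) (x - y) * (((s + t) / (4 * Real.pi * s * t)) *
      Real.exp (-((s + t) / (4 * s * t)) *
        ‖z - ((t / (s + t) : ℝ) * x + (s / (s + t) : ℝ) * y)‖ ^ 2)) := by
    ext z
    exact G_mul_gen hs ht x y z
  have hb : 0 < (s + t) / (4 * s * t) := by positivity
  rw [hf]
  refine ⟨((H41.integrable_gauss _ hb _).const_mul _).const_mul _, ?_⟩
  rw [integral_const_mul, integral_const_mul, H41.integral_gauss _ hb]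
  have : (s + t) / (4 * Real.pi * s * t) * (Real.pi / ((s + t) / (4 * s * t))) = 1 := by
    field_simp
  rw [this, mul_one]

lemma G_intg {s : ℝ} (hs : 0 < s) (x : ℂ) : Integrable (fun z : ℂ => G s (x - z)) := by
  have h := (H41.integrable_gauss (1 / (4 * s)) (by positivity) x).const_mul
    (1 / (4 * Real.pi * s))
  refine h.congr (Eventually.of_forall fun z => ?_)
  simp only [G]
  rw [norm_sub_rev]
  rw [div_eq_mul_one_div (Real.exp _), mul_comm]
  congr 2
  ring

lemma G_int_one {s : ℝ} (hs : 0 < s) (x : ℂ) : ∫ z : ℂ, G s (x - z) = 1 := by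
  have hf : (fun z : ℂ => G s (x - z)) = fun z : ℂ =>
      (1 / (4 * Real.pi * s)) * Real.exp (-(1 / (4 * s)) * ‖z - x‖ ^ 2) := by
    ext z
    simp only [G]
    rw [norm_sub_rev, div_eq_mul_one_div (Real.exp _), mul_comm]
    congr 2
    ring
  rw [hf, integral_const_mul, H41.integral_gauss _ (by positivity)]
  field_simp

/-! ### Half planes -/

/-- the open half plane `⟨u, x⟩ < h` -/
def Hp (u : ℂ) (h : ℝ) : Set ℂ := {x | ip u x < h}

lemma Hp_open (u : ℂ) (h : ℝ) : IsOpen (Hp u h) := by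
  unfold Hp ip
  exact isOpen_lt (by fun_prop) continuous_const

/-- reflection in the line `⟨u, x⟩ = h` -/
noncomputable def rf (u : ℂ) (h : ℝ) (y : ℂ) : ℂ := y + ((2 * (h - ip u y) : ℝ) : ℂ) * u

/-- kernel of the half plane by images -/
noncomputable def qk (u : ℂ) (h : ℝ) (t : ℝ) (x y : ℂ) : ℝ := G t (x - y) - G t (x - rf u h y)

lemma unit_sq {u : ℂ} (hu : ‖u‖ = 1) : u.re ^ 2 + u.im ^ 2 = 1 := by
  have := Complex.sq_norm u
  rw [hu, Complex.normSq_apply] at this
  nlinarith

lemma norm_rf {u : ℂ} (hu : ‖u‖ = 1) (h : ℝ) (x y : ℂ) :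
    ‖x - rf u h y‖ ^ 2 = ‖x - y‖ ^ 2 + 4 * (h - ip u x) * (h - ip u y) := by
  have h1 := unit_sq hu
  rw [← Complex.normSq_eq_norm_sq, ← Complex.normSq_eq_norm_sq, Complex.normSq_apply,
    Complex.normSq_apply]
  simp only [rf, ip, Complex.sub_re, Complex.sub_im, Complex.add_re, Complex.add_im,
    Complex.re_ofReal_mul, Complex.im_ofReal_mul]
  have h2 : u.im ^ 2 = 1 - u.re ^ 2 := by linarith
  ring_nf
  have h3 : u.im ^ 3 = u.im * (1 - u.re ^ 2) := by rw [← h2]; ring
  have h4 : u.im ^ 4 = (1 - u.re ^ 2) ^ 2 := by rw [← h2]; ring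
  rw [h2, h3, h4]
  ring

lemma qk_eq {u : ℂ} (hu : ‖u‖ = 1) (h : ℝ) {t : ℝ} (ht : 0 < t) (x y : ℂ) :
    qk u h t x y = G t (x - y) * (1 - Real.exp (-((h - ip u x) * (h - ip u y) / t))) := by
  unfold qk G
  rw [norm_rf hu]
  have : Real.exp (-(‖x - y‖ ^ 2 + 4 * (h - ip u x) * (h - ip u y)) / (4 * t)) =
      Real.exp (-‖x - y‖ ^ 2 / (4 * t)) *
        Real.exp (-((h - ip u x) * (h - ip u y) / t)) := by
    rw [← Real.exp_add]
    congr 1
    field_simp
    ring
  rw [this]
  ring

lemma qk_nonneg {u : ℂ} (hu : ‖u‖ = 1) {h : ℝ} {t : ℝ} (ht : 0 < t) {x y : ℂ}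
    (hx : x ∈ Hp u h) (hy : y ∈ Hp u h) : 0 ≤ qk u h t x y := by
  rw [qk_eq hu h ht]
  have h1 : 0 < h - ip u x := by have : ip u x < h := hx; linarith
  have h2 : 0 < h - ip u y := by have : ip u y < h := hy; linarith
  have h3 : Real.exp (-((h - ip u x) * (h - ip u y) / t)) ≤ 1 := by
    rw [Real.exp_le_one_iff]
    have : 0 ≤ (h - ip u x) * (h - ip u y) / t := by positivity
    linarith
  have h4 := (G_pos ht (x - y)).le
  have h5 : 0 ≤ 1 - Real.exp (-((h - ip u x) * (h - ip u y) / t)) := by linarith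
  positivity

lemma qk_le {u : ℂ} {h : ℝ} {t : ℝ} (ht : 0 < t) (x y : ℂ) : qk u h t x y ≤ G t (x - y) := by
  unfold qk
  have := (G_pos ht (x - rf u h y)).le
  linarith

/-- lower bound for the shifted half plane -/
lemma le_qk {u : ℂ} (hu : ‖u‖ = 1) {h ε : ℝ} {t : ℝ} (ht : 0 < t) (hε : 0 ≤ ε) {x y : ℂ}
    (hx : x ∈ Hp u h) (hy : y ∈ Hp u h) :
    G t (x - y) * (1 - Real.exp (-(ε ^ 2 / t))) ≤ qk u (h + ε) t x y := by
  rw [qk_eq hu _ ht]
  have h1 : ε ≤ h + ε - ip u x := by have : ip u x < h := hx; linarith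
  have h2 : ε ≤ h + ε - ip u y := by have : ip u y < h := hy; linarith
  have h4 := (G_pos ht (x - y)).le
  refine mul_le_mul_of_nonneg_left ?_ h4
  have : ε ^ 2 / t ≤ (h + ε - ip u x) * (h + ε - ip u y) / t := by
    have : ε * ε ≤ (h + ε - ip u x) * (h + ε - ip u y) := mul_le_mul h1 h2 hε (by linarith)
    rw [sq]
    gcongr
  have := Real.exp_le_exp.mpr (neg_le_neg this)
  linarith

/-! ### The reflection preserves the measure -/

lemma rf_eq {u : ℂ} (hu : ‖u‖ = 1) (h : ℝ) (y : ℂ) :
    rf u h y = (-(u ^ 2)) * (starRingEnd ℂ) y + ((2 * h : ℝ) : ℂ) * u := by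
  have h1 := unit_sq hu
  apply Complex.ext
  · simp only [rf, ip, Complex.add_re, Complex.re_ofReal_mul, Complex.neg_re, Complex.neg_im,
      Complex.mul_re, Complex.conj_re, Complex.conj_im, pow_two, Complex.mul_im,
      Complex.ofReal_re, Complex.ofReal_im]
    linear_combination (-y.re) * h1
  · simp only [rf, ip, Complex.add_im, Complex.im_ofReal_mul, Complex.neg_re, Complex.neg_im,
      Complex.mul_im, Complex.conj_re, Complex.conj_im, pow_two, Complex.mul_re,
      Complex.ofReal_re, Complex.ofReal_im]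
    linear_combination (-y.im) * h1

lemma rf_mp {u : ℂ} (hu : ‖u‖ = 1) (h : ℝ) : MeasurePreserving (rf u h) volume volume := by
  have hu2 : ‖-(u ^ 2)‖ = 1 := by rw [norm_neg, norm_pow, hu, one_pow]
  have h1 : MeasurePreserving (fun y : ℂ => (-(u ^ 2)) * (starRingEnd ℂ) y) volume volume := by
    have ha := (Complex.conjLIE).measurePreserving
    have hb := (rotation ⟨-(u ^ 2), by
      rw [Submonoid.unitSphere, ← SetLike.mem_coe]
      simpa using hu2⟩).measurePreserving
    have := hb.comp ha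
    refine this
  have h2 := (measurePreserving_add_right volume (((2 * h : ℝ) : ℂ) * u)).comp h1
  have : rf u h = (fun y : ℂ => y + ((2 * h : ℝ) : ℂ) * u) ∘
      (fun y : ℂ => (-(u ^ 2)) * (starRingEnd ℂ) y) := by
    funext y
    exact rf_eq hu h y
  rw [this]
  exact h2

lemma ip_rf {u : ℂ} (hu : ‖u‖ = 1) (h : ℝ) (y : ℂ) : ip u (rf u h y) = 2 * h - ip u y := by
  have h1 := unit_sq hu
  simp only [rf, ip, Complex.add_re, Complex.re_ofReal_mul, Complex.add_im,
    Complex.im_ofReal_mul]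
  linear_combination (2 * (h - (u.re * y.re + u.im * y.im))) * h1

lemma rf_rf {u : ℂ} (hu : ‖u‖ = 1) (h : ℝ) (y : ℂ) : rf u h (rf u h y) = y := by
  have h3 : rf u h (rf u h y) = rf u h y + ((2 * (h - ip u (rf u h y)) : ℝ) : ℂ) * u := rfl
  rw [h3, ip_rf hu]
  unfold rf
  push_cast
  ring

lemma norm_rf_comm {u : ℂ} (hu : ‖u‖ = 1) (h : ℝ) (x y : ℂ) :
    ‖rf u h x - y‖ = ‖x - rf u h y‖ := by
  have h1 : ‖rf u h x - y‖ ^ 2 = ‖x - rf u h y‖ ^ 2 := by
    rw [norm_sub_rev, norm_rf hu, norm_rf hu, norm_sub_rev]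
    ring
  exact (pow_left_inj₀ (norm_nonneg _) (norm_nonneg _) two_ne_zero).mp h1

lemma norm_rf_rf {u : ℂ} (hu : ‖u‖ = 1) (h : ℝ) (x y : ℂ) :
    ‖rf u h x - rf u h y‖ = ‖x - y‖ := by
  rw [norm_rf_comm hu, rf_rf hu]

lemma G_congr {s : ℝ} {a b : ℂ} (h : ‖a‖ = ‖b‖) : G s a = G s b := by
  unfold G
  rw [h]

lemma qk_rf_left {u : ℂ} (hu : ‖u‖ = 1) (h t : ℝ) (x y : ℂ) :
    qk u h t (rf u h x) y = -qk u h t x y := by
  unfold qk
  rw [G_congr (norm_rf_comm hu h x y), G_congr (norm_rf_rf hu h x y)]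
  ring

lemma qk_symm {u : ℂ} (hu : ‖u‖ = 1) (h t : ℝ) (x y : ℂ) : qk u h t x y = qk u h t y x := by
  unfold qk
  rw [H41.G_sub_comm t x y]
  have : ‖x - rf u h y‖ = ‖y - rf u h x‖ := by
    rw [← norm_rf_comm hu, norm_sub_rev]
  rw [G_congr this]

lemma qk_intg {u : ℂ} (hu : ‖u‖ = 1) (h : ℝ) {s t : ℝ} (hs : 0 < s) (ht : 0 < t) (x y : ℂ) :
    Integrable (fun z => qk u h s x z * qk u h t z y) := by
  have e : (fun z => qk u h s x z * qk u h t z y) = fun z =>
      (G s (x - z) * G t (z - y) - G s (x - z) * G t (z - rf u h y)) -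
      (G s (rf u h x - z) * G t (z - y) - G s (rf u h x - z) * G t (z - rf u h y)) := by
    funext z
    unfold qk
    rw [G_congr (norm_rf_comm hu h x z).symm]
    ring
  rw [e]
  exact (((G_conv_gen hs ht _ _).1).sub (G_conv_gen hs ht _ _).1).sub
    (((G_conv_gen hs ht _ _).1).sub (G_conv_gen hs ht _ _).1)

/-- Chapman-Kolmogorov for the image kernel -/
theorem qk_ck {u : ℂ} (hu : ‖u‖ = 1) (h : ℝ) {s t : ℝ} (hs : 0 < s) (ht : 0 < t) (x y : ℂ) :
    ∫ z in Hp u h, qk u h s x z * qk u h t z y = qk u h (s + t) x y := by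
  have hi := qk_intg hu h hs ht x y
  have hmeas : MeasurableSet (Hp u h) := (Hp_open u h).measurableSet
  -- the integral over the complement is the same
  have h1 : ∫ z in (Hp u h)ᶜ, qk u h s x z * qk u h t z y =
      ∫ z in Hp u h, qk u h s x z * qk u h t z y := by
    have hpre : ((rf u h) ⁻¹' (Hp u h) : Set ℂ) =ᵐ[volume] ((Hp u h)ᶜ : Set ℂ) := by
      have hnull : volume {z : ℂ | ip u z = h} = 0 := by
        have := Measure.addHaar_affineSubspace (volume : Measure ℂ)
          (AffineSubspace.mk' (((h : ℝ) : ℂ) * u) (LinearMap.ker (innerSL ℝ u).toLinearMap)) ?_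
        · refine measure_mono_null ?_ this
          intro z hz
          have hz' : ip u z = h := hz
          simp only [SetLike.mem_coe, AffineSubspace.mem_mk', LinearMap.mem_ker, vsub_eq_sub]
          simp only [ContinuousLinearMap.coe_coe, innerSL_apply_apply]
          rw [Complex.inner]
          have h2 := unit_sq hu
          simp only [ip] at hz'
          simp only [Complex.mul_re, Complex.conj_re, Complex.conj_im, Complex.sub_re,
            Complex.sub_im, Complex.im_ofReal_mul, Complex.ofReal_re, Complex.ofReal_im]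
          linear_combination hz' - h * h2
        · intro htop
          have hdir := congrArg AffineSubspace.direction htop
          rw [AffineSubspace.direction_mk', AffineSubspace.direction_top] at hdir
          have hm : u ∈ LinearMap.ker (innerSL ℝ u).toLinearMap := by rw [hdir]; trivial
          rw [LinearMap.mem_ker] at hm
          simp only [ContinuousLinearMap.coe_coe, innerSL_apply_apply, real_inner_self_eq_norm_sq,
            hu] at hm
          norm_num at hm
      rw [ae_eq_set]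
      constructor
      · refine measure_mono_null ?_ hnull
        intro z hz
        have ha : ip u (rf u h z) < h := hz.1
        have hb : ip u z < h := by
          by_contra hc
          exact hz.2 hc
        rw [ip_rf hu] at ha
        exfalso
        linarith
      · refine measure_mono_null ?_ hnull
        intro z hz
        have ha : ¬ ip u z < h := hz.1
        have hb : ¬ ip u (rf u h z) < h := hz.2
        rw [ip_rf hu] at hb
        have : ip u z = h := by linarith
        exact this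
    have hcs := setIntegral_congr_set (f := fun z => qk u h s x z * qk u h t z y) hpre
    rw [← hcs]
    have := (rf_mp hu h).setIntegral_preimage_emb
      (MeasurableEquiv.measurableEmbedding ⟨⟨rf u h, rf u h, rf_rf hu h, rf_rf hu h⟩,
        (rf_mp hu h).measurable, (rf_mp hu h).measurable⟩)
      (fun z => qk u h s x z * qk u h t z y) (Hp u h)
    rw [← this]
    refine setIntegral_congr_fun ((rf_mp hu h).measurable hmeas) fun z _ => ?_
    rw [qk_rf_left hu, qk_symm hu h s x (rf u h z), qk_rf_left hu, qk_symm hu h s z x]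
    ring
  have h2 := integral_add_compl hmeas hi
  rw [h1] at h2
  have h3 : ∫ z, qk u h s x z * qk u h t z y = 2 * qk u h (s + t) x y := by
    have e : (fun z => qk u h s x z * qk u h t z y) = fun z =>
        (G s (x - z) * G t (z - y) - G s (x - z) * G t (z - rf u h y)) -
        (G s (rf u h x - z) * G t (z - y) - G s (rf u h x - z) * G t (z - rf u h y)) := by
      funext z
      unfold qk
      rw [G_congr (norm_rf_comm hu h x z).symm]
      ring
    have i1 := (G_conv_gen hs ht x y)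
    have i2 := (G_conv_gen hs ht x (rf u h y))
    have i3 := (G_conv_gen hs ht (rf u h x) y)
    have i4 := (G_conv_gen hs ht (rf u h x) (rf u h y))
    rw [e]
    calc ∫ z, ((G s (x - z) * G t (z - y) - G s (x - z) * G t (z - rf u h y)) -
        (G s (rf u h x - z) * G t (z - y) - G s (rf u h x - z) * G t (z - rf u h y)))
        = (∫ z, (G s (x - z) * G t (z - y) - G s (x - z) * G t (z - rf u h y))) -
          ∫ z, (G s (rf u h x - z) * G t (z - y) - G s (rf u h x - z) * G t (z - rf u h y)) :=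
          integral_sub (i1.1.sub i2.1) (i3.1.sub i4.1)
      _ = ((∫ z, G s (x - z) * G t (z - y)) - ∫ z, G s (x - z) * G t (z - rf u h y)) -
          ((∫ z, G s (rf u h x - z) * G t (z - y)) -
            ∫ z, G s (rf u h x - z) * G t (z - rf u h y)) := by
          rw [integral_sub i1.1 i2.1, integral_sub i3.1 i4.1]
      _ = 2 * qk u h (s + t) x y := by
          rw [i1.2, i2.2, i3.2, i4.2, G_congr (norm_rf_comm hu h x y),
            G_congr (norm_rf_rf hu h x y)]
          unfold qk
          ring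
  linarith

end Pool.Agent.H38KL
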