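import Pool.Agent.Helper38_KL.HKa

/-!
HK, part 2: the heat kernel of a half plane; operators of chains over arbitrary partitions.
-/

set_option autoImplicit false
set_option linter.unusedSimpArgs false

namespace Pool.Agent.H38KL

open MeasureTheory Complex Filter Topology Set Pool.Agent.H62T Pool.Agent.H16F
open scoped ENNReal NNReal

/-! ### Half planes -/

lemma ker_nonneg {D : Set ℂ} (hD : IsOpen D) (m : ℕ) {t : ℝ} (ht : 0 < t) (x y : ℂ) :
    0 ≤ Ker D m t x y := ((H41.basic D hD m t ht).2.1 x y).1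

lemma ker_le {D : Set ℂ} (hD : IsOpen D) (m : ℕ) {t : ℝ} (ht : 0 < t) (x y : ℂ) :
    Ker D m t x y ≤ G t (x - y) := ((H41.basic D hD m t ht).2.1 x y).2

lemma qk_le_ker {u : ℂ} (hu : ‖u‖ = 1) (h : ℝ) (m : ℕ) : ∀ t : ℝ, 0 < t → ∀ x ∈ Hp u h,
    ∀ y ∈ Hp u h, qk u h t x y ≤ Ker (Hp u h) m t x y := by
  induction m with
  | zero =>
    intro t ht x hx y hy
    simp only [Ker, indicator_of_mem hx, indicator_of_mem hy, one_mul]
    exact qk_le ht x y
  | succ m ih =>
    intro t ht x hx y hy
    have ht2 : 0 < t / 2 := by positivity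
    have h1 := qk_ck hu h ht2 ht2 x y
    rw [add_halves] at h1
    rw [← h1]
    have hm := (Hp_open u h).measurableSet
    have hi := H41.ker_integrable _ (Hp_open u h) m (t / 2) ht2 x y
    calc ∫ z in Hp u h, qk u h (t / 2) x z * qk u h (t / 2) z y
        ≤ ∫ z in Hp u h, Ker (Hp u h) m (t / 2) x z * Ker (Hp u h) m (t / 2) z y := by
          refine setIntegral_mono_on (qk_intg hu h ht2 ht2 x y).integrableOn hi.integrableOn hm ?_
          intro z hz
          exact mul_le_mul (ih _ ht2 x hx z hz) (ih _ ht2 z hz y hy)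
            (qk_nonneg hu ht2 hz hy) (ker_nonneg (Hp_open u h) m ht2 x z)
      _ ≤ ∫ z, Ker (Hp u h) m (t / 2) x z * Ker (Hp u h) m (t / 2) z y := by
          refine setIntegral_le_integral hi (Eventually.of_forall fun z => ?_)
          exact mul_nonneg (ker_nonneg (Hp_open u h) m ht2 x z)
            (ker_nonneg (Hp_open u h) m ht2 z y)
      _ = Ker (Hp u h) (m + 1) t x y := rfl

lemma ker_zero_out {D : Set ℂ} (hD : IsOpen D) (m : ℕ) {t : ℝ} (ht : 0 < t) {x y : ℂ}
    (h : x ∉ D ∨ y ∉ D) : Ker D m t x y = 0 := (H41.basic D hD m t ht).2.2.1 x y h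

lemma Hp_mono (u : ℂ) {h h' : ℝ} (hh : h ≤ h') : Hp u h ⊆ Hp u h' := fun x hx => by
  have : ip u x < h := hx
  show ip u x < h'
  linarith

lemma ker_le_qk {u : ℂ} (hu : ‖u‖ = 1) (h : ℝ) {ε : ℝ} (hε : 0 < ε) (m : ℕ) :
    ∀ t : ℝ, 0 < t → ∀ x ∈ Hp u h, ∀ y ∈ Hp u h,
    Ker (Hp u h) m t x y * (1 - Real.exp (-(ε ^ 2 * 2 ^ m / t))) ^ (2 ^ m) ≤
      qk u (h + ε) t x y := by
  induction m with
  | zero =>
    intro t ht x hx y hy
    simp only [Ker, indicator_of_mem hx, indicator_of_mem hy, one_mul, pow_zero, mul_one, pow_one]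
    exact le_qk hu ht hε.le hx hy
  | succ m ih =>
    intro t ht x hx y hy
    have ht2 : 0 < t / 2 := by positivity
    set c : ℝ := 1 - Real.exp (-(ε ^ 2 * 2 ^ (m + 1) / t)) with hc
    have hc' : 1 - Real.exp (-(ε ^ 2 * 2 ^ m / (t / 2))) = c := by
      rw [hc]
      congr 3
      field_simp
      ring
    have hc0 : 0 ≤ c := by
      rw [hc]
      have : Real.exp (-(ε ^ 2 * 2 ^ (m + 1) / t)) ≤ 1 := by
        rw [Real.exp_le_one_iff]
        have : 0 ≤ ε ^ 2 * 2 ^ (m + 1) / t := by positivity
        linarith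
      linarith
    have hi := H41.ker_integrable _ (Hp_open u h) m (t / 2) ht2 x y
    have hm := (Hp_open u h).measurableSet
    have hε' := Hp_mono u (show h ≤ h + ε by linarith)
    have h1 := qk_ck hu (h + ε) ht2 ht2 x y
    rw [add_halves] at h1
    rw [← h1]
    have hp : c ^ (2 ^ (m + 1)) = c ^ (2 ^ m) * c ^ (2 ^ m) := by
      rw [← pow_add]; congr 1; rw [pow_succ]; ring
    have e1 : Ker (Hp u h) (m + 1) t x y * c ^ (2 ^ (m + 1)) =
        ∫ z in Hp u h, (Ker (Hp u h) m (t / 2) x z * c ^ (2 ^ m)) *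
          (Ker (Hp u h) m (t / 2) z y * c ^ (2 ^ m)) := by
      rw [setIntegral_eq_integral_of_forall_compl_eq_zero]
      · show (∫ z, Ker (Hp u h) m (t / 2) x z * Ker (Hp u h) m (t / 2) z y) * _ = _
        rw [← integral_mul_const]
        refine integral_congr_ae (Eventually.of_forall fun z => ?_)
        simp only
        rw [hp]
        ring
      · intro z hz
        rw [ker_zero_out (Hp_open u h) m ht2 (Or.inr hz)]
        ring
    rw [e1]
    have hqi := qk_intg hu (h + ε) ht2 ht2 x y
    calc ∫ z in Hp u h, (Ker (Hp u h) m (t / 2) x z * c ^ (2 ^ m)) *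
          (Ker (Hp u h) m (t / 2) z y * c ^ (2 ^ m))
        ≤ ∫ z in Hp u h, qk u (h + ε) (t / 2) x z * qk u (h + ε) (t / 2) z y := by
          refine setIntegral_mono_on ?_ hqi.integrableOn hm ?_
          · have := (hi.mul_const (c ^ (2 ^ m) * c ^ (2 ^ m))).integrableOn (s := Hp u h)
            refine this.congr_fun (fun z _ => ?_) hm
            simp only
            ring
          · intro z hz
            have a1 := ih _ ht2 x hx z hz
            have a2 := ih _ ht2 z hz y hy
            rw [hc'] at a1 a2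
            exact mul_le_mul a1 a2 (mul_nonneg (ker_nonneg (Hp_open u h) m ht2 z y) (by positivity))
              (qk_nonneg hu ht2 (hε' hx) (hε' hz))
      _ ≤ ∫ z in Hp u (h + ε), qk u (h + ε) (t / 2) x z * qk u (h + ε) (t / 2) z y := by
          refine setIntegral_mono_set hqi.integrableOn ?_ (Eventually.of_forall hε')
          refine (ae_restrict_iff' (Hp_open u (h + ε)).measurableSet).mpr
            (Eventually.of_forall fun z hz => ?_)
          exact mul_nonneg (qk_nonneg hu ht2 (hε' hx) hz) (qk_nonneg hu ht2 hz (hε' hy))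

lemma tend_small {a : ℝ} (ha : 0 < a) :
    Tendsto (fun m : ℕ => (1 : ℝ) - 2 ^ m * Real.exp (-(a * 2 ^ m))) atTop (𝓝 1) := by
  have h1 : Tendsto (fun y : ℝ => y * Real.exp (-(a * y))) atTop (𝓝 0) := by
    have := Real.tendsto_pow_mul_exp_neg_atTop_nhds_zero 1
    have h2 := (this.comp (tendsto_id.const_mul_atTop ha)).const_mul (1 / a)
    rw [mul_zero] at h2
    refine h2.congr fun y => ?_
    simp only [Function.comp, id, pow_one]
    field_simp
  have h2 : Tendsto (fun m : ℕ => (2 : ℝ) ^ m) atTop atTop :=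
    tendsto_pow_atTop_atTop_of_one_lt (by norm_num)
  have h3 := (h1.comp h2).const_sub 1
  rw [sub_zero] at h3
  exact h3

/-- HK1: the heat kernel of a half plane is given by images -/
theorem pD_half {u : ℂ} (hu : ‖u‖ = 1) {h : ℝ} {t : ℝ} (ht : 0 < t) {x y : ℂ}
    (hx : x ∈ Hp u h) (hy : y ∈ Hp u h) : pD (Hp u h) t x y = qk u h t x y := by
  apply le_antisymm
  · have h0 := H8.pD_nonneg (Hp_open u h) ht x y
    have hε : ∀ ε : ℝ, 0 < ε → pD (Hp u h) t x y ≤ qk u (h + ε) t x y := by
      intro ε hε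
      have hlim := (tend_small (a := ε ^ 2 / t) (by positivity)).const_mul (pD (Hp u h) t x y)
      rw [mul_one] at hlim
      refine le_of_tendsto hlim (Eventually.of_forall fun m => ?_)
      have h1 := ker_le_qk hu h hε m t ht x hx y hy
      have h2 := H8.pD_le_ker (Hp_open u h) ht m x y
      have h3 : (1 : ℝ) - 2 ^ m * Real.exp (-(ε ^ 2 / t * 2 ^ m)) ≤
          (1 - Real.exp (-(ε ^ 2 * 2 ^ m / t))) ^ (2 ^ m) := by
        have hb := one_add_mul_le_pow (a := -Real.exp (-(ε ^ 2 * 2 ^ m / t))) (by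
          have : Real.exp (-(ε ^ 2 * 2 ^ m / t)) ≤ 1 := by
            rw [Real.exp_le_one_iff]
            have : 0 ≤ ε ^ 2 * 2 ^ m / t := by positivity
            linarith
          linarith) (2 ^ m)
        have e : ε ^ 2 / t * 2 ^ m = ε ^ 2 * 2 ^ m / t := by ring
        rw [e]
        push_cast at hb
        rw [← sub_eq_add_neg] at hb
        linarith
      have hc0 : 0 ≤ (1 - Real.exp (-(ε ^ 2 * 2 ^ m / t))) ^ (2 ^ m) := by
        apply pow_nonneg
        have : Real.exp (-(ε ^ 2 * 2 ^ m / t)) ≤ 1 := by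
          rw [Real.exp_le_one_iff]
          have : 0 ≤ ε ^ 2 * 2 ^ m / t := by positivity
          linarith
        linarith
      calc pD (Hp u h) t x y * (1 - 2 ^ m * Real.exp (-(ε ^ 2 / t * 2 ^ m)))
          ≤ pD (Hp u h) t x y * (1 - Real.exp (-(ε ^ 2 * 2 ^ m / t))) ^ (2 ^ m) := by gcongr
        _ ≤ Ker (Hp u h) m t x y * (1 - Real.exp (-(ε ^ 2 * 2 ^ m / t))) ^ (2 ^ m) := by gcongr
        _ ≤ _ := h1
    have hcont : Tendsto (fun ε : ℝ => qk u (h + ε) t x y) (𝓝[>] 0) (𝓝 (qk u h t x y)) := by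
      have : Continuous (fun ε : ℝ => qk u (h + ε) t x y) := by
        unfold qk rf ip G
        fun_prop
      have h2 := this.tendsto 0
      rw [add_zero] at h2
      exact h2.mono_left nhdsWithin_le_nhds
    refine ge_of_tendsto hcont ?_
    filter_upwards [self_mem_nhdsWithin] with ε hε'
    exact hε ε hε'
  · refine le_ciInf fun m => qk_le_ker hu h m t ht x hx y hy

/-! ### Chains -/

/-- one step of a chain in `D` -/
noncomputable def Tk (D : Set ℂ) (τ : ℝ) (f : ℂ → ℝ≥0∞) (x : ℂ) : ℝ≥0∞ :=
  D.indicator (fun x => ∫⁻ z, ENNReal.ofReal (G τ (x - z)) * f z) x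

/-- a chain in `D` with the steps in the list -/
noncomputable def Tl (D : Set ℂ) : List ℝ → (ℂ → ℝ≥0∞) → ℂ → ℝ≥0∞
  | [], f => D.indicator f
  | τ :: L, f => Tk D τ (Tl D L f)

lemma G_meas (τ : ℝ) : Measurable (fun p : ℂ × ℂ => ENNReal.ofReal (G τ (p.1 - p.2))) := by
  unfold G
  fun_prop

lemma Tk_meas {D : Set ℂ} (hD : MeasurableSet D) (τ : ℝ) {f : ℂ → ℝ≥0∞} (hf : Measurable f) :
    Measurable (Tk D τ f) := by
  unfold Tk
  refine Measurable.indicator ?_ hD
  exact Measurable.lintegral_prod_right' (f := fun p : ℂ × ℂ =>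
    ENNReal.ofReal (G τ (p.1 - p.2)) * f p.2) ((G_meas τ).mul (hf.comp measurable_snd))

lemma Tl_meas {D : Set ℂ} (hD : MeasurableSet D) (L : List ℝ) {f : ℂ → ℝ≥0∞}
    (hf : Measurable f) : Measurable (Tl D L f) := by
  induction L with
  | nil => exact hf.indicator hD
  | cons τ L ih => exact Tk_meas hD τ ih

lemma Tl_supp {D : Set ℂ} (L : List ℝ) (f : ℂ → ℝ≥0∞) {x : ℂ} (hx : x ∉ D) :
    Tl D L f x = 0 := by
  cases L with
  | nil => exact Set.indicator_of_notMem hx f
  | cons τ L =>
    exact Set.indicator_of_notMem hx (fun x => ∫⁻ z, ENNReal.ofReal (G τ (x - z)) * Tl D L f z)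

lemma ind_Tl {D : Set ℂ} (L : List ℝ) (f : ℂ → ℝ≥0∞) : D.indicator (Tl D L f) = Tl D L f := by
  funext x
  by_cases hx : x ∈ D
  · exact indicator_of_mem hx _
  · rw [indicator_of_notMem hx, Tl_supp L f hx]

lemma Tl_append (D : Set ℂ) (L M : List ℝ) (f : ℂ → ℝ≥0∞) :
    Tl D (L ++ M) f = Tl D L (Tl D M f) := by
  induction L with
  | nil => exact (ind_Tl M f).symm
  | cons τ L ih =>
    show Tk D τ (Tl D (L ++ M) f) = Tk D τ (Tl D L (Tl D M f))
    rw [ih]

lemma Tk_mono {D D' : Set ℂ} (hD : D ⊆ D') (τ : ℝ) {f g : ℂ → ℝ≥0∞} (hf : f ≤ g) :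
    Tk D τ f ≤ Tk D' τ g := by
  intro x
  unfold Tk
  refine (indicator_le_indicator_of_subset hD (fun _ => bot_le) x).trans ?_
  refine indicator_le_indicator ?_
  exact lintegral_mono fun z => by
    have := hf z
    gcongr

lemma Tl_mono {D D' : Set ℂ} (hD : D ⊆ D') (L : List ℝ) {f g : ℂ → ℝ≥0∞} (hf : f ≤ g) :
    Tl D L f ≤ Tl D' L g := by
  induction L with
  | nil =>
    intro x
    refine (indicator_le_indicator_of_subset hD (fun _ => bot_le) x).trans ?_
    exact indicator_le_indicator (hf x)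
  | cons τ L ih => exact Tk_mono hD τ ih

lemma Tk_const (D : Set ℂ) (τ : ℝ) (c : ℝ≥0∞) {f : ℂ → ℝ≥0∞} (hf : Measurable f) :
    Tk D τ (fun x => c * f x) = fun x => c * Tk D τ f x := by
  funext x
  unfold Tk
  by_cases hx : x ∈ D
  · rw [indicator_of_mem hx, indicator_of_mem hx]
    rw [← lintegral_const_mul _ (by
      have := (G_meas τ).comp (measurable_prodMk_left (x := x))
      exact this.mul hf)]
    refine lintegral_congr fun z => ?_
    ring
  · rw [indicator_of_notMem hx, indicator_of_notMem hx, mul_zero]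

lemma Tl_const {D : Set ℂ} (hD : MeasurableSet D) (L : List ℝ) (c : ℝ≥0∞) {f : ℂ → ℝ≥0∞}
    (hf : Measurable f) : Tl D L (fun x => c * f x) = fun x => c * Tl D L f x := by
  induction L with
  | nil =>
    funext x
    by_cases hx : x ∈ D
    · simp only [Tl, indicator_of_mem hx]
    · simp only [Tl, indicator_of_notMem hx, mul_zero]
  | cons τ L ih =>
    simp only [Tl]
    rw [ih, Tk_const D τ c (Tl_meas hD L hf)]

/-- the free semigroup -/
noncomputable def Fr (t : ℝ) (f : ℂ → ℝ≥0∞) (x : ℂ) : ℝ≥0∞ :=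
  ∫⁻ z, ENNReal.ofReal (G t (x - z)) * f z

lemma Tk_eq (D : Set ℂ) (τ : ℝ) (f : ℂ → ℝ≥0∞) (x : ℂ) :
    Tk D τ f x = D.indicator (Fr τ f) x := rfl

lemma Fr_meas (t : ℝ) {f : ℂ → ℝ≥0∞} (hf : Measurable f) : Measurable (Fr t f) := by
  have := Tk_meas MeasurableSet.univ t hf
  have e : Tk Set.univ t f = Fr t f := by
    funext x
    simp [Tk_eq]
  rwa [e] at this

lemma Fr_mono (t : ℝ) {f g : ℂ → ℝ≥0∞} (h : f ≤ g) : Fr t f ≤ Fr t g := fun x =>
  lintegral_mono fun z => by
    have := h z
    gcongr

/-- semigroup property -/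
lemma Fr_Fr {s t : ℝ} (hs : 0 < s) (ht : 0 < t) {f : ℂ → ℝ≥0∞} (hf : Measurable f) :
    Fr s (Fr t f) = Fr (s + t) f := by
  funext x
  unfold Fr
  have h1 : ∀ z : ℂ, ENNReal.ofReal (G s (x - z)) * ∫⁻ w, ENNReal.ofReal (G t (z - w)) * f w =
      ∫⁻ w, ENNReal.ofReal (G s (x - z)) * (ENNReal.ofReal (G t (z - w)) * f w) := by
    intro z
    rw [lintegral_const_mul]
    exact ((G_meas t).comp (measurable_prodMk_left (x := z))).mul hf
  simp only [h1]
  rw [lintegral_lintegral_swap]
  · refine lintegral_congr fun w => ?_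
    have h2 : ∀ z : ℂ, ENNReal.ofReal (G s (x - z)) * (ENNReal.ofReal (G t (z - w)) * f w) =
        ENNReal.ofReal (G s (x - z) * G t (z - w)) * f w := by
      intro z
      rw [ENNReal.ofReal_mul (G_pos hs _).le]
      ring
    simp only [h2]
    have hm : Measurable fun z : ℂ => ENNReal.ofReal (G s (x - z) * G t (z - w)) := by
      unfold G
      fun_prop
    rw [lintegral_mul_const _ hm]
    congr 1
    rw [← (G_conv_gen hs ht x w).2, ofReal_integral_eq_lintegral_ofReal (G_conv_gen hs ht x w).1]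
    exact Eventually.of_forall fun z => mul_nonneg (G_pos hs _).le (G_pos ht _).le
  · refine Measurable.aemeasurable ?_
    have a1 : Measurable fun p : ℂ × ℂ => ENNReal.ofReal (G s (x - p.1)) := by
      unfold G; fun_prop
    have a2 : Measurable fun p : ℂ × ℂ => ENNReal.ofReal (G t (p.1 - p.2)) := by
      unfold G; fun_prop
    exact a1.mul (a2.mul (hf.comp measurable_snd))

/-- all entries are positive -/
def Pos (L : List ℝ) : Prop := ∀ s ∈ L, 0 < s

lemma Pos.tail {τ : ℝ} {L : List ℝ} (h : Pos (τ :: L)) : Pos L := fun s hs =>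
  h s (List.mem_cons_of_mem _ hs)

lemma Pos.head {τ : ℝ} {L : List ℝ} (h : Pos (τ :: L)) : 0 < τ := h τ List.mem_cons_self

lemma Pos.append {L M : List ℝ} (h : Pos L) (h' : Pos M) : Pos (L ++ M) := fun s hs => by
  rcases List.mem_append.mp hs with h1 | h1
  · exact h s h1
  · exact h' s h1

lemma Pos.sum {L : List ℝ} (h : Pos L) (hL : L ≠ []) : 0 < L.sum := by
  induction L with
  | nil => exact absurd rfl hL
  | cons τ L ih =>
    rw [List.sum_cons]
    have h1 := h.head
    rcases eq_or_ne L [] with h2 | h2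
    · rw [h2]
      simpa using h1
    · have := ih h.tail h2
      linarith

/-- a chain is at most one big step -/
lemma Tl_le_one {D : Set ℂ} (hD : MeasurableSet D) {L : List ℝ} (hL : L ≠ []) (hp : Pos L)
    {f : ℂ → ℝ≥0∞} (hf : Measurable f) : Tl D L f ≤ Tl D [L.sum] f := by
  induction L with
  | nil => exact absurd rfl hL
  | cons τ L ih =>
    rcases eq_or_ne L [] with h2 | h2
    · rw [h2]
      simp
    · have h3 := ih h2 hp.tail
      have hs := hp.tail.sum h2
      calc Tl D (τ :: L) f = Tk D τ (Tl D L f) := rfl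
        _ ≤ Tk D τ (Tl D [L.sum] f) := Tk_mono subset_rfl τ h3
        _ = Tk D τ (Tk D L.sum (D.indicator f)) := rfl
        _ ≤ Tk D τ (Fr L.sum (D.indicator f)) := by
            refine Tk_mono subset_rfl τ fun x => ?_
            rw [Tk_eq]
            exact indicator_le_self _ _ _
        _ = Tl D [(τ :: L).sum] f := by
            funext x
            simp only [Tl, Tk_eq, List.sum_cons]
            rw [Fr_Fr hp.head hs (hf.indicator hD)]

/-- `Ref L' L`: the partition `L'` is finer than `L` -/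
inductive Ref : List ℝ → List ℝ → Prop
  | nil : Ref [] []
  | cons (L₁ L' : List ℝ) (τ : ℝ) (L : List ℝ) : L₁ ≠ [] → Pos L₁ → L₁.sum = τ → Ref L' L →
      Ref (L₁ ++ L') (τ :: L)

lemma Ref.le {D : Set ℂ} (hD : MeasurableSet D) {L' L : List ℝ} (h : Ref L' L)
    {f : ℂ → ℝ≥0∞} (hf : Measurable f) : Tl D L' f ≤ Tl D L f := by
  induction h with
  | nil => exact le_rfl
  | cons L₁ L' τ L h1 h2 h3 _ ih =>
    rw [Tl_append]
    refine (Tl_mono subset_rfl L₁ ih).trans ?_
    refine (Tl_le_one hD h1 h2 (Tl_meas hD L hf)).trans ?_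
    rw [h3]
    show Tk D τ (D.indicator (Tl D L f)) ≤ Tk D τ (Tl D L f)
    rw [ind_Tl]

lemma Ref.pos {L' L : List ℝ} (h : Ref L' L) : Pos L' := by
  induction h with
  | nil => intro s hs; simp at hs
  | cons L₁ L' τ L h1 h2 h3 _ ih => exact h2.append ih

lemma exists_ref : ∀ (n : ℕ) (L M : List ℝ), L.length + M.length ≤ n → Pos L → Pos M →
    L.sum = M.sum → ∃ N, Ref N L ∧ Ref N M := by
  intro n
  induction n with
  | zero =>
    intro L M hn _ _ _
    have h1 : L = [] := List.length_eq_zero_iff.mp (by omega)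
    have h2 : M = [] := List.length_eq_zero_iff.mp (by omega)
    subst h1 h2
    exact ⟨[], Ref.nil, Ref.nil⟩
  | succ n ih =>
    intro L M hn hL hM hs
    match L, M with
    | [], [] => exact ⟨[], Ref.nil, Ref.nil⟩
    | [], b :: M =>
      exfalso
      have := hM.sum (List.cons_ne_nil _ _)
      simp only [List.sum_nil] at hs
      linarith
    | a :: L, [] =>
      exfalso
      have := hL.sum (List.cons_ne_nil _ _)
      simp only [List.sum_nil] at hs
      linarith
    | a :: L, b :: M =>
      simp only [List.length_cons] at hn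
      simp only [List.sum_cons] at hs
      rcases lt_trichotomy a b with hab | hab | hab
      · obtain ⟨N, h1, h2⟩ := ih L ((b - a) :: M) (by simp only [List.length_cons]; omega)
          hL.tail (by
            intro s hs'
            rcases List.mem_cons.mp hs' with h | h
            · rw [h]; linarith
            · exact hM.tail s h) (by simp only [List.sum_cons]; linarith)
        generalize hK : (b - a) :: M = K at h2
        cases h2 with
        | nil => exact absurd hK (List.cons_ne_nil _ _)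
        | cons L₁ N' τ M' c1 c2 c3 c4 =>
          rw [List.cons.injEq] at hK
          obtain ⟨hK1, hK2⟩ := hK
          subst hK2
          refine ⟨a :: (L₁ ++ N'), ?_, ?_⟩
          · exact Ref.cons [a] _ a L (by simp) (by intro s hs'; simp at hs'; rw [hs']; exact hL.head)
              (by simp) h1
          · have : a :: (L₁ ++ N') = (a :: L₁) ++ N' := rfl
            rw [this]
            refine Ref.cons (a :: L₁) N' b M (by simp) ?_ ?_ c4
            · intro s hs'
              rcases List.mem_cons.mp hs' with h | h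
              · rw [h]; exact hL.head
              · exact c2 s h
            · rw [List.sum_cons, c3, ← hK1]; ring
      · subst hab
        obtain ⟨N, h1, h2⟩ := ih L M (by omega) hL.tail hM.tail (by linarith)
        refine ⟨a :: N, ?_, ?_⟩
        · exact Ref.cons [a] _ a L (by simp) (by intro s hs'; simp at hs'; rw [hs']; exact hL.head)
            (by simp) h1
        · exact Ref.cons [a] _ a M (by simp) (by intro s hs'; simp at hs'; rw [hs']; exact hL.head)
            (by simp) h2
      · obtain ⟨N, h1, h2⟩ := ih ((a - b) :: L) M (by simp only [List.length_cons]; omega)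
          (by
            intro s hs'
            rcases List.mem_cons.mp hs' with h | h
            · rw [h]; linarith
            · exact hL.tail s h) hM.tail (by simp only [List.sum_cons]; linarith)
        generalize hK : (a - b) :: L = K at h1
        cases h1 with
        | nil => exact absurd hK (List.cons_ne_nil _ _)
        | cons L₁ N' τ L' c1 c2 c3 c4 =>
          rw [List.cons.injEq] at hK
          obtain ⟨hK1, hK2⟩ := hK
          subst hK2
          refine ⟨b :: (L₁ ++ N'), ?_, ?_⟩
          · have : b :: (L₁ ++ N') = (b :: L₁) ++ N' := rfl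
            rw [this]
            refine Ref.cons (b :: L₁) N' a L (by simp) ?_ ?_ c4
            · intro s hs'
              rcases List.mem_cons.mp hs' with h | h
              · rw [h]; exact hM.head
              · exact c2 s h
            · rw [List.sum_cons, c3, ← hK1]; ring
          · exact Ref.cons [b] _ b M (by simp) (by intro s hs'; simp at hs'; rw [hs']; exact hM.head)
              (by simp) h2

end Pool.Agent.H38KL
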