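import Pool.Agent.Helper38_KL.HKb

/-!
HK, part 3: comparison of chains over different partitions, for intersections of half planes.
-/

set_option autoImplicit false
set_option linter.unusedSimpArgs false

namespace Pool.Agent.H38KL

open MeasureTheory Complex Filter Topology Set Pool.Agent.H62T Pool.Agent.H16F
open scoped ENNReal NNReal

/-- intersection of half planes, shifted outwards by `ε` -/
def DS (S : Finset (ℂ × ℝ)) (ε : ℝ) : Set ℂ := {x | ∀ s ∈ S, ip s.1 x < s.2 + ε}

/-- closed version -/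
def CS (S : Finset (ℂ × ℝ)) : Set ℂ := {x | ∀ s ∈ S, ip s.1 x ≤ s.2}

/-- unit normals -/
def Un (S : Finset (ℂ × ℝ)) : Prop := ∀ s ∈ S, ‖s.1‖ = 1

lemma DS_eq (S : Finset (ℂ × ℝ)) (ε : ℝ) : DS S ε = ⋂ s ∈ S, Hp s.1 (s.2 + ε) := by
  ext x
  simp [DS, Hp]

lemma DS_open (S : Finset (ℂ × ℝ)) (ε : ℝ) : IsOpen (DS S ε) := by
  rw [DS_eq]
  exact isOpen_biInter_finset fun s _ => Hp_open _ _

lemma DS_mono (S : Finset (ℂ × ℝ)) {ε ε' : ℝ} (h : ε ≤ ε') : DS S ε ⊆ DS S ε' := fun x hx s hs => by
  have := hx s hs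
  linarith

lemma DS_anti {S S' : Finset (ℂ × ℝ)} (h : S ⊆ S') (ε : ℝ) : DS S' ε ⊆ DS S ε :=
  fun _ hx s hs => hx s (h hs)

lemma CS_meas (S : Finset (ℂ × ℝ)) : MeasurableSet (CS S) := by
  have : CS S = ⋂ s ∈ S, {x | ip s.1 x ≤ s.2} := by
    ext x
    simp [CS]
  rw [this]
  refine Finset.measurableSet_biInter _ fun s _ => ?_
  unfold ip
  exact measurableSet_le (by fun_prop) measurable_const

lemma line_null {u : ℂ} (hu : ‖u‖ = 1) (h : ℝ) : volume {z : ℂ | ip u z = h} = 0 := by
  have := Measure.addHaar_affineSubspace (volume : Measure ℂ)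
    (AffineSubspace.mk' (((h : ℝ) : ℂ) * u) (LinearMap.ker (innerSL ℝ u).toLinearMap)) ?_
  · refine measure_mono_null ?_ this
    intro z hz
    have hz' : ip u z = h := hz
    simp only [SetLike.mem_coe, AffineSubspace.mem_mk', LinearMap.mem_ker, vsub_eq_sub]
    simp only [ContinuousLinearMap.coe_coe, innerSL_apply_apply]
    rw [Complex.inner]
    have h2 := unit_sq hu
    simp only [ip] at hz'
    simp only [Complex.mul_re, Complex.conj_re, Complex.conj_im, Complex.sub_re,
      Complex.sub_im, Complex.im_ofReal_mul, Complex.ofReal_re, Complex.ofReal_im]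
    linear_combination hz' - h * h2
  · intro htop
    have hdir := congrArg AffineSubspace.direction htop
    rw [AffineSubspace.direction_mk', AffineSubspace.direction_top] at hdir
    have hm : u ∈ LinearMap.ker (innerSL ℝ u).toLinearMap := by rw [hdir]; trivial
    rw [LinearMap.mem_ker] at hm
    simp only [ContinuousLinearMap.coe_coe, innerSL_apply_apply, real_inner_self_eq_norm_sq,
      hu] at hm
    norm_num at hm

/-! ### Supermodularity -/

lemma Tl_univ {L : List ℝ} (hL : L ≠ []) (hp : Pos L) {f : ℂ → ℝ≥0∞} (hf : Measurable f) :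
    Tl Set.univ L f = Fr L.sum f := by
  induction L with
  | nil => exact absurd rfl hL
  | cons τ L ih =>
    rcases eq_or_ne L [] with h2 | h2
    · subst h2
      funext x
      simp [Tl, Tk_eq]
    · have h3 := ih h2 hp.tail
      funext x
      show Tk Set.univ τ (Tl Set.univ L f) x = _
      rw [h3, Tk_eq, indicator_univ, Fr_Fr hp.head (hp.tail.sum h2) hf, List.sum_cons]

lemma Fr_add (t : ℝ) {f g : ℂ → ℝ≥0∞} (hf : Measurable f) (x : ℂ) :
    Fr t (fun z => f z + g z) x = Fr t f x + Fr t g x := by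
  unfold Fr
  rw [← lintegral_add_left]
  · refine lintegral_congr fun z => ?_
    ring
  · exact ((G_meas t).comp (measurable_prodMk_left (x := x))).mul hf

lemma supermod {D₁ D₂ : Set ℂ} (h₁ : MeasurableSet D₁) (h₂ : MeasurableSet D₂) (L : List ℝ)
    {f : ℂ → ℝ≥0∞} (hf : Measurable f) (x : ℂ) :
    Tl D₁ L f x + Tl D₂ L f x ≤ Tl (D₁ ∩ D₂) L f x + Tl Set.univ L f x := by
  induction L generalizing x with
  | nil =>
    simp only [Tl, indicator_univ]
    by_cases a : x ∈ D₁ <;> by_cases b : x ∈ D₂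
    · rw [indicator_of_mem a, indicator_of_mem b, indicator_of_mem (s := D₁ ∩ D₂) ⟨a, b⟩]
    · rw [indicator_of_mem a, indicator_of_notMem b,
        indicator_of_notMem (s := D₁ ∩ D₂) fun h => b h.2]
      simp
    · rw [indicator_of_notMem a, indicator_of_mem b,
        indicator_of_notMem (s := D₁ ∩ D₂) fun h => a h.1]
    · rw [indicator_of_notMem a, indicator_of_notMem b,
        indicator_of_notMem (s := D₁ ∩ D₂) fun h => a h.1]
      simp
  | cons τ L ih =>
    have hu : Tk Set.univ τ (Tl Set.univ L f) x = Fr τ (Tl Set.univ L f) x := by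
      rw [Tk_eq, indicator_univ]
    show Tk D₁ τ (Tl D₁ L f) x + Tk D₂ τ (Tl D₂ L f) x ≤
      Tk (D₁ ∩ D₂) τ (Tl (D₁ ∩ D₂) L f) x + Tk Set.univ τ (Tl Set.univ L f) x
    rw [hu, Tk_eq, Tk_eq, Tk_eq]
    by_cases a : x ∈ D₁ <;> by_cases b : x ∈ D₂
    · rw [indicator_of_mem a, indicator_of_mem b, indicator_of_mem (s := D₁ ∩ D₂) ⟨a, b⟩]
      rw [← Fr_add τ (Tl_meas h₁ L hf), ← Fr_add τ (Tl_meas (h₁.inter h₂) L hf)]
      exact Fr_mono τ (fun z => ih z) x
    · rw [indicator_of_mem a, indicator_of_notMem b,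
        indicator_of_notMem (s := D₁ ∩ D₂) fun h => b h.2]
      rw [add_zero, zero_add]
      exact Fr_mono τ (Tl_mono (subset_univ _) L le_rfl) x
    · rw [indicator_of_notMem a, indicator_of_mem b,
        indicator_of_notMem (s := D₁ ∩ D₂) fun h => a h.1]
      rw [zero_add, zero_add]
      exact Fr_mono τ (Tl_mono (subset_univ _) L le_rfl) x
    · rw [indicator_of_notMem a, indicator_of_notMem b,
        indicator_of_notMem (s := D₁ ∩ D₂) fun h => a h.1]
      simp

/-! ### One half plane -/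

lemma half_lower {u : ℂ} (hu : ‖u‖ = 1) (h : ℝ) {L : List ℝ} (hL : L ≠ []) (hp : Pos L)
    {f : ℂ → ℝ≥0∞} (hf : Measurable f) (hs : ∀ z ∉ Hp u h, f z = 0) {x : ℂ} (hx : x ∈ Hp u h) :
    ∫⁻ z, ENNReal.ofReal (qk u h L.sum x z) * f z ≤ Tl (Hp u h) L f x := by
  induction L generalizing x with
  | nil => exact absurd rfl hL
  | cons τ L ih =>
    have hτ := hp.head
    rcases eq_or_ne L [] with h2 | h2
    · subst h2
      simp only [Tl, Tk_eq, List.sum_cons, List.sum_nil, add_zero]
      rw [indicator_of_mem hx]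
      unfold Fr
      refine lintegral_mono fun z => ?_
      by_cases hz : z ∈ Hp u h
      · rw [indicator_of_mem hz]
        gcongr
        exact qk_le hτ x z
      · rw [hs z hz]
        simp
    · have ht := hp.tail.sum h2
      show _ ≤ Tk (Hp u h) τ (Tl (Hp u h) L f) x
      rw [Tk_eq, indicator_of_mem hx]
      unfold Fr
      have step : ∫⁻ z in Hp u h, ENNReal.ofReal (qk u h τ x z) *
          ∫⁻ w, ENNReal.ofReal (qk u h L.sum z w) * f w ≤
          ∫⁻ z, ENNReal.ofReal (G τ (x - z)) * Tl (Hp u h) L f z := by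
        rw [← lintegral_indicator (Hp_open u h).measurableSet]
        refine lintegral_mono fun z => ?_
        by_cases hz : z ∈ Hp u h
        · rw [indicator_of_mem hz]
          have := ih h2 hp.tail hz
          have := qk_le (u := u) (h := h) hτ x z
          gcongr
        · rw [indicator_of_notMem hz]
          exact bot_le
      refine le_trans (le_of_eq ?_) step
      have qm : ∀ t : ℝ, Measurable fun p : ℂ × ℂ => ENNReal.ofReal (qk u h t p.1 p.2) := by
        intro t
        unfold qk rf ip G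
        fun_prop
      have e1 : ∀ z : ℂ, ENNReal.ofReal (qk u h τ x z) *
          ∫⁻ w, ENNReal.ofReal (qk u h L.sum z w) * f w =
          ∫⁻ w, ENNReal.ofReal (qk u h τ x z) * (ENNReal.ofReal (qk u h L.sum z w) * f w) := by
        intro z
        rw [lintegral_const_mul]
        exact ((qm _).comp (measurable_prodMk_left (x := z))).mul hf
      simp only [e1]
      rw [lintegral_lintegral_swap]
      · refine lintegral_congr fun w => ?_
        by_cases hw : w ∈ Hp u h
        · have e2 : ∫⁻ z in Hp u h, ENNReal.ofReal (qk u h τ x z) *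
              (ENNReal.ofReal (qk u h L.sum z w) * f w) =
              (∫⁻ z in Hp u h, ENNReal.ofReal (qk u h τ x z * qk u h L.sum z w)) * f w := by
            rw [← lintegral_mul_const]
            · refine setLIntegral_congr_fun (Hp_open u h).measurableSet fun z hz => ?_
              rw [ENNReal.ofReal_mul (qk_nonneg hu hτ hx hz), mul_assoc]
            · have : Measurable fun z : ℂ => qk u h τ x z * qk u h L.sum z w := by
                unfold qk rf ip G
                fun_prop
              exact this.ennreal_ofReal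
          rw [e2, List.sum_cons, ← qk_ck hu h hτ ht x w]
          rw [ofReal_integral_eq_lintegral_ofReal (qk_intg hu h hτ ht x w).integrableOn]
          refine (ae_restrict_iff' (Hp_open u h).measurableSet).mpr
            (Eventually.of_forall fun z hz => ?_)
          exact mul_nonneg (qk_nonneg hu hτ hx hz) (qk_nonneg hu ht hz hw)
        · simp only [hs w hw, mul_zero, lintegral_zero]
      · refine Measurable.aemeasurable ?_
        have a1 : Measurable fun p : ℂ × ℂ => ENNReal.ofReal (qk u h τ x p.1) := by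
          unfold qk rf ip G
          fun_prop
        have a2 : Measurable fun p : ℂ × ℂ => ENNReal.ofReal (qk u h L.sum p.1 p.2) := qm _
        have a3 : Measurable fun p : ℂ × ℂ => f p.2 := hf.comp measurable_snd
        show Measurable fun p : ℂ × ℂ => ENNReal.ofReal (qk u h τ x p.1) *
          (ENNReal.ofReal (qk u h L.sum p.1 p.2) * f p.2)
        exact a1.mul (a2.mul a3)

/-- the free step is bounded by the chain in the shifted half plane and a small error -/
lemma half_free {u : ℂ} (hu : ‖u‖ = 1) (h : ℝ) {ε : ℝ} (hε : 0 < ε) {L : List ℝ} (hL : L ≠ [])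
    (hp : Pos L) {f : ℂ → ℝ≥0∞} (hf : Measurable f) (hs : ∀ z ∉ Hp u h, f z = 0) {x : ℂ}
    (hx : x ∈ Hp u h) :
    Fr L.sum f x ≤ Tl (Hp u (h + ε)) L f x +
      ENNReal.ofReal (Real.exp (-(ε ^ 2 / L.sum))) * Fr L.sum f x := by
  have ht := hp.sum hL
  have hsub := Hp_mono u (show h ≤ h + ε by linarith)
  have h1 := half_lower hu (h + ε) hL hp hf (fun z hz => hs z fun hc => hz (hsub hc)) (hsub hx)
  refine le_trans ?_ (add_le_add_left h1 _)
  unfold Fr
  rw [← lintegral_const_mul]
  · rw [← lintegral_add_left]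
    · refine lintegral_mono fun z => ?_
      by_cases hz : z ∈ Hp u h
      · have h2 := le_qk hu ht hε.le hx hz
        have h3 : G L.sum (x - z) ≤ qk u (h + ε) L.sum x z +
            Real.exp (-(ε ^ 2 / L.sum)) * G L.sum (x - z) := by linarith
        have h4 := ENNReal.ofReal_le_ofReal h3
        rw [ENNReal.ofReal_add (qk_nonneg hu ht (hsub hx) (hsub hz))
          (mul_nonneg (Real.exp_pos _).le (G_pos ht _).le),
          ENNReal.ofReal_mul (Real.exp_pos _).le] at h4
        calc ENNReal.ofReal (G L.sum (x - z)) * f z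
            ≤ (ENNReal.ofReal (qk u (h + ε) L.sum x z) +
              ENNReal.ofReal (Real.exp (-(ε ^ 2 / L.sum))) *
                ENNReal.ofReal (G L.sum (x - z))) * f z := by gcongr
          _ = _ := by ring
      · rw [hs z hz]
        simp
    · have : Measurable fun z : ℂ => ENNReal.ofReal (qk u (h + ε) L.sum x z) := by
        unfold qk rf ip G
        fun_prop
      exact this.mul hf
  · exact ((G_meas L.sum).comp (measurable_prodMk_left (x := x))).mul hf

lemma Fr_le_const {t : ℝ} (ht : 0 < t) {f : ℂ → ℝ≥0∞} {C : ℝ≥0∞} (hf : ∀ z, f z ≤ C) (x : ℂ) :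
    Fr t f x ≤ C := by
  unfold Fr
  calc ∫⁻ z, ENNReal.ofReal (G t (x - z)) * f z
      ≤ ∫⁻ z, ENNReal.ofReal (G t (x - z)) * C := by
        refine lintegral_mono fun z => ?_
        have := hf z
        gcongr
    _ = C := by
        have hm : Measurable fun z => ENNReal.ofReal (G t (x - z)) := by
          unfold G
          fun_prop
        rw [lintegral_mul_const _ hm]
        rw [← ofReal_integral_eq_lintegral_ofReal (G_intg ht x)
          (Eventually.of_forall fun z => (G_pos ht _).le), G_int_one ht]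
        simp

lemma Tl_le_const {D : Set ℂ} {L : List ℝ} (hp : Pos L) {f : ℂ → ℝ≥0∞} {C : ℝ≥0∞}
    (hf : ∀ z, f z ≤ C) (x : ℂ) : Tl D L f x ≤ C := by
  induction L generalizing x with
  | nil => exact (indicator_le_self _ _ _).trans (hf x)
  | cons τ L ih =>
    show Tk D τ (Tl D L f) x ≤ C
    rw [Tk_eq]
    exact (indicator_le_self _ _ _).trans (Fr_le_const hp.head (fun z => ih hp.tail z) x)

/-! ### Finitely many half planes -/

lemma DS_insert (s : ℂ × ℝ) (S : Finset (ℂ × ℝ)) [DecidableEq (ℂ × ℝ)] (ε : ℝ) :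
    DS (insert s S) ε = Hp s.1 (s.2 + ε) ∩ DS S ε := by
  ext x
  simp [DS, Hp]

open Classical in
lemma union_free {S : Finset (ℂ × ℝ)} (hS : Un S) {ε : ℝ} (hε : 0 < ε) {L : List ℝ}
    (hL : L ≠ []) (hp : Pos L) {f : ℂ → ℝ≥0∞} {C : ℝ≥0∞} (hC : C ≠ ⊤) (hf : Measurable f)
    (hfC : ∀ z, f z ≤ C) (hs : ∀ z ∉ DS S 0, f z = 0) {x : ℂ} (hx : x ∈ DS S 0) :
    Fr L.sum f x ≤ Tl (DS S ε) L f x +
      S.card * (ENNReal.ofReal (Real.exp (-(ε ^ 2 / L.sum))) * Fr L.sum f x) := by
  have ht := hp.sum hL
  have hFC : Fr L.sum f x ≠ ⊤ := ne_top_of_le_ne_top hC (Fr_le_const ht hfC x)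
  induction S using Finset.induction_on with
  | empty =>
    have : DS ∅ ε = Set.univ := by
      ext x
      simp [DS]
    rw [this, Tl_univ hL hp hf]
    simp
  | insert s S hsS ih =>
    have hS' : Un S := fun r hr => hS r (Finset.mem_insert_of_mem hr)
    have hu : ‖s.1‖ = 1 := hS s (Finset.mem_insert_self _ _)
    have hsub : DS (insert s S) 0 ⊆ DS S 0 := DS_anti (Finset.subset_insert _ _) 0
    have hsub2 : DS (insert s S) 0 ⊆ Hp s.1 s.2 := by
      intro z hz
      have := hz s (Finset.mem_insert_self _ _)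
      rw [add_zero] at this
      exact this
    have i1 := ih hS' (fun z hz => hs z fun hc => hz (hsub hc)) (hsub hx)
    have i2 := half_free hu s.2 hε hL hp hf (fun z hz => hs z fun hc => hz (hsub2 hc)) (hsub2 hx)
    have i3 := supermod (Hp_open s.1 (s.2 + ε)).measurableSet (DS_open S ε).measurableSet L hf x
    rw [Tl_univ hL hp hf, ← DS_insert] at i3
    set F := Fr L.sum f x
    set η := ENNReal.ofReal (Real.exp (-(ε ^ 2 / L.sum)))
    have h5 : F + F ≤ (Tl (DS (insert s S) ε) L f x + (η * F + S.card * (η * F))) + F := by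
      calc F + F ≤ (Tl (Hp s.1 (s.2 + ε)) L f x + η * F) +
            (Tl (DS S ε) L f x + S.card * (η * F)) := add_le_add i2 i1
        _ = (Tl (Hp s.1 (s.2 + ε)) L f x + Tl (DS S ε) L f x) + (η * F + S.card * (η * F)) := by
            ring
        _ ≤ (Tl (DS (insert s S) ε) L f x + F) + (η * F + S.card * (η * F)) := by gcongr
        _ = _ := by ring
    have h6 := (ENNReal.add_le_add_iff_right hFC).mp h5
    rw [Finset.card_insert_of_notMem hsS]
    refine h6.trans (le_of_eq ?_)
    push_cast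
    ring

/-- the factor lost in one step -/
noncomputable def cf (k : ℕ) (ε τ : ℝ) : ℝ≥0∞ :=
  ENNReal.ofReal (1 - k * Real.exp (-(ε ^ 2 / τ)))

lemma union_free' {S : Finset (ℂ × ℝ)} (hS : Un S) {ε : ℝ} (hε : 0 < ε) {L : List ℝ}
    (hL : L ≠ []) (hp : Pos L) {f : ℂ → ℝ≥0∞} {C : ℝ≥0∞} (hC : C ≠ ⊤) (hf : Measurable f)
    (hfC : ∀ z, f z ≤ C) (hs : ∀ z ∉ DS S 0, f z = 0) {x : ℂ} (hx : x ∈ DS S 0) :
    cf S.card ε L.sum * Fr L.sum f x ≤ Tl (DS S ε) L f x := by
  have ht := hp.sum hL
  have hFC : Fr L.sum f x ≠ ⊤ := ne_top_of_le_ne_top hC (Fr_le_const ht hfC x)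
  have h := union_free hS hε hL hp hC hf hfC hs hx
  unfold cf
  set e := (S.card : ℝ) * Real.exp (-(ε ^ 2 / L.sum)) with he
  have he0 : 0 ≤ e := by positivity
  rcases le_or_gt e 1 with h1 | h1
  · have h2 : ENNReal.ofReal (1 - e) + ENNReal.ofReal e = 1 := by
      rw [← ENNReal.ofReal_add (by linarith) he0]
      simp
    have h3 : (S.card : ℝ≥0∞) * (ENNReal.ofReal (Real.exp (-(ε ^ 2 / L.sum))) * Fr L.sum f x) =
        ENNReal.ofReal e * Fr L.sum f x := by
      rw [he, ENNReal.ofReal_mul (by positivity)]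
      simp only [ENNReal.ofReal_natCast]
      ring
    rw [h3] at h
    have h4 : ENNReal.ofReal (1 - e) * Fr L.sum f x + ENNReal.ofReal e * Fr L.sum f x =
        Fr L.sum f x := by
      rw [← add_mul, h2, one_mul]
    have h5 : ENNReal.ofReal e * Fr L.sum f x ≠ ⊤ := ENNReal.mul_ne_top ENNReal.ofReal_ne_top hFC
    rw [← h4] at h
    have h6 : ENNReal.ofReal (1 - e) * Fr L.sum f x + ENNReal.ofReal e * Fr L.sum f x ≤
        Tl (DS S ε) L f x + ENNReal.ofReal e * Fr L.sum f x := by
      refine h.trans ?_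
      rw [h4]
    exact (ENNReal.add_le_add_iff_right h5).mp h6
  · rw [ENNReal.ofReal_of_nonpos (by linarith), zero_mul]
    exact bot_le

/-- chains in `D` are bounded by finer chains in the shifted domain -/
lemma Ref.shift {S : Finset (ℂ × ℝ)} (hS : Un S) {ε : ℝ} (hε : 0 < ε) {L' L : List ℝ}
    (hR : Ref L' L) (hL : Pos L) {f : ℂ → ℝ≥0∞} {C : ℝ≥0∞} (hC : C ≠ ⊤) (hf : Measurable f)
    (hfC : ∀ z, f z ≤ C) {x : ℂ} (hx : x ∈ DS S 0) :
    (L.map (cf S.card ε)).prod * Tl (DS S 0) L f x ≤ Tl (DS S ε) L' f x := by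
  have hm0 := (DS_open S 0).measurableSet
  have hme := (DS_open S ε).measurableSet
  have hsub := DS_mono S hε.le
  induction hR generalizing x with
  | nil =>
    simp only [List.map_nil, List.prod_nil, one_mul, Tl]
    exact indicator_le_indicator_of_subset hsub (fun _ => bot_le) x
  | cons L₁ L' τ L h1 h2 h3 h4 ih =>
    have ihx := fun z (hz : z ∈ DS S 0) => ih hL.tail hz
    set P := (L.map (cf S.card ε)).prod with hP
    set g := Tl (DS S 0) L f with hg
    have hgm : Measurable g := Tl_meas hm0 L hf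
    have hgC : ∀ z, g z ≤ C := fun z => Tl_le_const hL.tail hfC z
    have hgs : ∀ z ∉ DS S 0, g z = 0 := fun z hz => Tl_supp L f hz
    have h5 := union_free' hS hε h1 h2 hC hgm hgC hgs hx
    rw [h3] at h5
    have e1 : Tl (DS S 0) (τ :: L) f x = Fr τ g x := by
      show Tk (DS S 0) τ (Tl (DS S 0) L f) x = _
      rw [Tk_eq, indicator_of_mem hx]
    rw [List.map_cons, List.prod_cons, e1, Tl_append]
    calc cf S.card ε τ * P * Fr τ g x = P * (cf S.card ε τ * Fr τ g x) := by ring
      _ ≤ P * Tl (DS S ε) L₁ g x := by gcongr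
      _ = Tl (DS S ε) L₁ (fun z => P * g z) x := by rw [Tl_const hme L₁ P hgm]
      _ ≤ Tl (DS S ε) L₁ (Tl (DS S ε) L' f) x := by
          refine Tl_mono subset_rfl L₁ ?_ x
          intro z
          by_cases hz : z ∈ DS S 0
          · exact ihx z hz
          · simp only [hgs z hz, mul_zero]
            exact bot_le

end Pool.Agent.H38KL
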