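import Pool.Agent.Helper38_KL.Kit

/-!
AEU Part III, KL block: the Kontorovich-Lebedev product formula
`∫ K_{iτ}(x) K_{iτ}(y) exp(ψτ) dτ = π K_0(√(x² + y² + 2xy cos ψ))`.
-/

set_option autoImplicit false

namespace Pool.Agent.H38KL

open MeasureTheory Complex Filter Topology Set
open scoped FourierTransform

/-- Fourier inversion with the kernel `exp(iτv)` -/
lemma inversion {f : ℝ → ℂ} (hc : Continuous f) (hf : Integrable f)
    (hF : Integrable (fun τ : ℝ => ∫ v : ℝ, f v * Complex.exp (I * τ * v))) (v : ℝ) :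
    ∫ τ : ℝ, (∫ u : ℝ, f u * Complex.exp (I * τ * u)) * Complex.exp (-(I * τ * v)) =
      2 * Real.pi * f v := by
  set F : ℝ → ℂ := fun τ : ℝ => ∫ v : ℝ, f v * Complex.exp (I * τ * v) with hFd
  have h1 : 𝓕 f = fun w : ℝ => F (w * (-(2 * Real.pi))) := by
    funext w
    rw [Real.fourier_real_eq_integral_exp_smul, hFd]
    refine integral_congr_ae (Eventually.of_forall fun u => ?_)
    simp only [smul_eq_mul]
    rw [mul_comm]
    congr 2
    push_cast
    ring
  have h2 : Integrable (𝓕 f) := by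
    rw [h1]
    exact hF.comp_mul_right' (by have := Real.pi_pos; simp [this.ne'])
  have h3 := congrFun (hc.fourierInv_fourier_eq hf h2) v
  rw [Real.fourierInv_eq'] at h3
  rw [h1] at h3
  have h4 := Measure.integral_comp_mul_right (fun τ : ℝ => F τ * Complex.exp (-(I * τ * v)))
    (-(2 * Real.pi))
  have h5 : ∀ w : ℝ, Complex.exp ((2 * Real.pi * inner ℝ w v : ℝ) * I) •
      F (w * (-(2 * Real.pi))) = F (w * (-(2 * Real.pi))) *
        Complex.exp (-(I * ((w * (-(2 * Real.pi)) : ℝ) : ℂ) * v)) := by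
    intro w
    rw [smul_eq_mul, mul_comm]
    congr 2
    simp only [RCLike.inner_apply, conj_trivial]
    push_cast
    ring
  simp only [h5] at h3
  rw [h4] at h3
  have h6 : |(-(2 * Real.pi))⁻¹| = (2 * Real.pi)⁻¹ := by
    rw [abs_inv, abs_neg, abs_of_pos (by positivity)]
  rw [h6] at h3
  have h7 : (2 * (Real.pi : ℂ)) ≠ 0 := by
    exact_mod_cast (by positivity : (2 * Real.pi : ℝ) ≠ 0)
  rw [← h3, Complex.real_smul]
  push_cast
  rw [← mul_assoc, mul_inv_cancel₀ h7, one_mul]

lemma Kit_cont {x : ℝ} (hx : 0 < x) : Continuous (fun τ => Kit τ x) := by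
  unfold Kit
  refine continuous_of_dominated (bound := fun v => Real.exp (-(x * Real.cosh v)))
    (fun τ => by fun_prop) (fun τ => Eventually.of_forall fun v => ?_)
    (intg_exp_cosh hx).integrableOn (Eventually.of_forall fun v => by fun_prop)
  rw [norm_mul, Real.norm_eq_abs, Real.norm_eq_abs, abs_of_pos (Real.exp_pos _)]
  exact mul_le_of_le_one_right (Real.exp_pos _).le (Real.abs_cos_le_one _)

lemma Kit_weight_intg {x φ : ℝ} (hx : 0 < x) (hφ : |φ| < Real.pi / 2) :
    Integrable (fun τ : ℝ => Real.exp (φ * τ) * Kit τ x) := by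
  obtain ⟨φ₁, h0, h1⟩ := exists_between hφ
  have h00 : 0 ≤ φ₁ := le_trans (abs_nonneg _) h0.le
  have hi := (intg_exp_abs (a := φ₁ - |φ|) (by linarith)).mul_const (Kit 0 (x * Real.cos φ₁))
  refine hi.mono' ?_ (Eventually.of_forall fun τ => ?_)
  · have := Kit_cont hx
    exact (by fun_prop : Continuous fun τ : ℝ => Real.exp (φ * τ) * Kit τ x).aestronglyMeasurable
  · rw [norm_mul, Real.norm_eq_abs, Real.norm_eq_abs, abs_of_pos (Real.exp_pos _)]
    have h2 := abs_Kit_le hx τ h00 h1
    have h3 : Real.exp (φ * τ) ≤ Real.exp (|φ| * |τ|) := by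
      rw [← abs_mul]
      exact Real.exp_le_exp.mpr (le_abs_self _)
    calc Real.exp (φ * τ) * |Kit τ x|
        ≤ Real.exp (|φ| * |τ|) * (Real.exp (-(φ₁ * |τ|)) * Kit 0 (x * Real.cos φ₁)) := by
          gcongr
      _ = _ := by
          rw [← mul_assoc, ← Real.exp_add]
          congr 2
          ring

/-- the Kontorovich-Lebedev product formula -/
theorem klf {x y ψ : ℝ} (hx : 0 < x) (hy : 0 < y) (hψ : |ψ| < Real.pi) :
    ∫ τ : ℝ, Kit τ x * Kit τ y * Real.exp (ψ * τ) =
      Real.pi * Kit 0 (√(x ^ 2 + y ^ 2 + 2 * x * y * Real.cos ψ)) := by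
  set φ : ℝ := ψ / 2 with hφd
  have hφ : |φ| < Real.pi / 2 := by
    rw [hφd, abs_div, abs_of_pos (by norm_num : (0 : ℝ) < 2)]
    linarith
  have hcφ : 0 < Real.cos φ := Real.cos_pos_of_mem_Ioo (abs_lt.mp hφ)
  set f : ℝ → ℂ := fun v => Complex.exp (-(x * Complex.cosh (v + φ * I))) with hf
  set g : ℝ → ℂ := fun v => Complex.exp (-(y * Complex.cosh (v + φ * I))) with hg
  have hfc : Continuous f := by rw [hf]; fun_prop
  have hgc : Continuous g := by rw [hg]; fun_prop
  have hfi : Integrable f := by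
    have := Gf_intg hx 0 hcφ
    refine this.congr (Eventually.of_forall fun v => ?_)
    simp [Gf, hf]
  have hgi : Integrable g := by
    have := Gf_intg hy 0 hcφ
    refine this.congr (Eventually.of_forall fun v => ?_)
    simp [Gf, hg]
  have hF : ∀ τ : ℝ, ∫ v : ℝ, f v * Complex.exp (I * τ * v) =
      ((2 * Real.exp (φ * τ) * Kit τ x : ℝ) : ℂ) := fun τ => fourier_Kit hx τ hφ
  have hG : ∀ τ : ℝ, ∫ v : ℝ, g v * Complex.exp (I * τ * v) =
      ((2 * Real.exp (φ * τ) * Kit τ y : ℝ) : ℂ) := fun τ => fourier_Kit hy τ hφ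
  have hFi : Integrable (fun τ : ℝ => ∫ v : ℝ, f v * Complex.exp (I * τ * v)) := by
    simp only [hF]
    have h := (Kit_weight_intg hx hφ).const_mul 2
    have h' : Integrable (fun τ : ℝ => 2 * Real.exp (φ * τ) * Kit τ x) := by
      simpa only [mul_assoc] using h
    exact h'.ofReal
  -- Fubini
  set P : ℝ → ℂ := fun τ => ∫ v : ℝ, f v * Complex.exp (I * τ * v) with hP
  have h1 : ∫ τ : ℝ, P τ * ∫ v : ℝ, g v * Complex.exp (I * τ * v) =
      ∫ v : ℝ, g v * ∫ τ : ℝ, P τ * Complex.exp (I * τ * v) := by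
    have hprod : Integrable (fun p : ℝ × ℝ => P p.1 * g p.2 * Complex.exp (I * p.1 * p.2))
        (volume.prod volume) := by
      refine (hFi.mul_prod hgi).mul_bdd (c := 1) ?_ (Eventually.of_forall fun p => ?_)
      · exact (by fun_prop : Continuous fun p : ℝ × ℝ =>
          Complex.exp (I * p.1 * p.2)).aestronglyMeasurable
      · rw [Complex.norm_exp]
        simp [Complex.mul_re, Complex.mul_im]
    have hs := integral_integral_swap (f := fun (τ v : ℝ) =>
      P τ * g v * Complex.exp (I * τ * v)) hprod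
    calc ∫ τ : ℝ, P τ * ∫ v : ℝ, g v * Complex.exp (I * τ * v)
        = ∫ τ : ℝ, ∫ v : ℝ, P τ * g v * Complex.exp (I * τ * v) := by
          refine integral_congr_ae (Eventually.of_forall fun τ => ?_)
          simp only
          rw [← integral_const_mul]
          refine integral_congr_ae (Eventually.of_forall fun v => ?_)
          simp only
          ring
      _ = ∫ v : ℝ, ∫ τ : ℝ, P τ * g v * Complex.exp (I * τ * v) := hs
      _ = _ := by
          refine integral_congr_ae (Eventually.of_forall fun v => ?_)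
          simp only
          rw [← integral_const_mul]
          refine integral_congr_ae (Eventually.of_forall fun τ => ?_)
          simp only
          ring
  have h2 : ∀ v : ℝ, ∫ τ : ℝ, P τ * Complex.exp (I * τ * v) = 2 * Real.pi * f (-v) := by
    intro v
    rw [← inversion hfc hfi hFi (-v)]
    refine integral_congr_ae (Eventually.of_forall fun τ => ?_)
    simp only [hP]
    congr 2
    push_cast
    ring
  simp only [h2] at h1
  -- the remaining integral
  set c : ℂ := x * Complex.exp (-(φ * I)) + y * Complex.exp (φ * I) with hcd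
  have e1 : Complex.exp (φ * I) = Complex.cos φ + Complex.sin φ * I := Complex.exp_mul_I _
  have e2 : Complex.exp (-(φ * I)) = Complex.cos φ - Complex.sin φ * I := by
    rw [← neg_mul, Complex.exp_mul_I, Complex.cos_neg, Complex.sin_neg]
    ring
  have hcre : c.re = (x + y) * Real.cos φ := by
    rw [hcd, e1, e2]
    simp only [← Complex.ofReal_cos, ← Complex.ofReal_sin, Complex.add_re, Complex.mul_re,
      Complex.sub_re, Complex.sub_im, Complex.ofReal_re, Complex.ofReal_im, Complex.I_re,
      Complex.I_im, Complex.add_im, Complex.mul_im]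
    ring
  have hcim : c.im = (y - x) * Real.sin φ := by
    rw [hcd, e1, e2]
    simp only [← Complex.ofReal_cos, ← Complex.ofReal_sin, Complex.add_re, Complex.mul_re,
      Complex.sub_re, Complex.sub_im, Complex.ofReal_re, Complex.ofReal_im, Complex.I_re,
      Complex.I_im, Complex.add_im, Complex.mul_im]
    ring
  have hcpos : 0 < c.re := by rw [hcre]; positivity
  have hcn : ‖c‖ = √(x ^ 2 + y ^ 2 + 2 * x * y * Real.cos ψ) := by
    rw [Complex.norm_def, Complex.normSq_apply, hcre, hcim]
    congr 1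
    have h3 : Real.cos ψ = 2 * Real.cos φ ^ 2 - 1 := by
      rw [← Real.cos_two_mul]; congr 1; rw [hφd]; ring
    have h4 := Real.sin_sq_add_cos_sq φ
    rw [h3]
    have h5 : Real.sin φ ^ 2 = 1 - Real.cos φ ^ 2 := by linarith
    have : (x + y) * Real.cos φ * ((x + y) * Real.cos φ) +
        (y - x) * Real.sin φ * ((y - x) * Real.sin φ) =
        (x + y) ^ 2 * Real.cos φ ^ 2 + (y - x) ^ 2 * Real.sin φ ^ 2 := by ring
    rw [this, h5]
    ring
  have hc0 : c ≠ 0 := by
    intro h
    rw [h] at hcpos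
    simp at hcpos
  have hR : 0 < ‖c‖ := norm_pos_iff.mpr hc0
  have harg : |Complex.arg c| < Real.pi / 2 :=
    Complex.abs_arg_lt_pi_div_two_iff.mpr (Or.inl hcpos)
  have h3 : ∀ v : ℝ, g v * (2 * Real.pi * f (-v)) =
      2 * Real.pi * (Complex.exp (-(‖c‖ * Complex.cosh (v + (Complex.arg c : ℝ) * I))) *
        Complex.exp (I * (0 : ℝ) * v)) := by
    intro v
    have h4 : (x : ℂ) * Complex.cosh (((-v : ℝ) : ℂ) + φ * I) +
        y * Complex.cosh ((v : ℂ) + φ * I) =
        ‖c‖ * Complex.cosh (v + (Complex.arg c : ℝ) * I) := by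
      have hc1 : (‖c‖ : ℂ) * Complex.exp ((Complex.arg c : ℝ) * I) = c :=
        Complex.norm_mul_exp_arg_mul_I c
      have hc2 : (‖c‖ : ℂ) * Complex.exp (-((Complex.arg c : ℝ) * I)) = starRingEnd ℂ c := by
        rw [← hc1, map_mul, ← Complex.exp_conj]
        simp
      have hc3 : starRingEnd ℂ c = x * Complex.exp (φ * I) + y * Complex.exp (-(φ * I)) := by
        rw [hcd]
        simp only [map_add, map_mul, ← Complex.exp_conj, map_neg, Complex.conj_I,
          Complex.conj_ofReal, mul_neg, neg_neg]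
      have e : (‖c‖ : ℂ) * Complex.cosh (v + (Complex.arg c : ℝ) * I) =
          (Complex.exp v * (‖c‖ * Complex.exp ((Complex.arg c : ℝ) * I)) +
            Complex.exp (-v) * (‖c‖ * Complex.exp (-((Complex.arg c : ℝ) * I)))) / 2 := by
        unfold Complex.cosh
        rw [Complex.exp_add, neg_add, Complex.exp_add]
        ring
      rw [e, hc1, hc2, hc3, hcd]
      unfold Complex.cosh
      push_cast
      rw [neg_add, neg_add, Complex.exp_add, Complex.exp_add, Complex.exp_add, Complex.exp_add,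
        neg_neg]
      ring
    have h5 : g v * f (-v) = Complex.exp (-(‖c‖ * Complex.cosh (v + (Complex.arg c : ℝ) * I))) := by
      simp only [hf, hg]
      rw [← Complex.exp_add, ← h4]
      congr 1
      ring
    have h6 : Complex.exp (I * (0 : ℝ) * v) = 1 := by simp
    rw [h6, mul_one, ← h5]
    ring
  simp only [h3] at h1
  rw [integral_const_mul, fourier_Kit hR 0 harg] at h1
  -- the left-hand side
  have h4 : ∀ τ : ℝ, P τ * ∫ v : ℝ, g v * Complex.exp (I * τ * v) =
      ((4 * (Kit τ x * Kit τ y * Real.exp (ψ * τ)) : ℝ) : ℂ) := by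
    intro τ
    rw [hP]
    simp only
    rw [hF, hG]
    have : Real.exp (ψ * τ) = Real.exp (φ * τ) * Real.exp (φ * τ) := by
      rw [← Real.exp_add]; congr 1; rw [hφd]; ring
    rw [this]
    push_cast
    ring
  simp only [h4] at h1
  rw [integral_complex_ofReal, integral_const_mul, hcn] at h1
  have h5 : 4 * ∫ τ : ℝ, Kit τ x * Kit τ y * Real.exp (ψ * τ) =
      2 * Real.pi * (2 * Real.exp ((Complex.arg c : ℝ) * 0) *
        Kit 0 (√(x ^ 2 + y ^ 2 + 2 * x * y * Real.cos ψ))) := by
    exact_mod_cast h1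
  rw [mul_zero, Real.exp_zero] at h5
  linarith

end Pool.Agent.H38KL
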